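import Pool.Graph.R_pool_sql_team_seeded_b0a926ef.R529.LG.Cov

set_option autoImplicit false

/-! The modulus and the class: the covering, with an arbitrary prime left out (compare
`Pool.Agent.R529.LG.main`, library). -/

namespace Pool.Agent.H92.I

open Finset Filter
open Pool.Agent.TH101.RG (V0)
open Pool.Agent.Y835.SC (big_card)
open Pool.Agent.R529.LG

/-- the prime `p` has no other prime within distance `G` -/
def Alone (G : ℝ) (p : ℕ) : Prop := ∀ p' : ℕ, p'.Prime → p' ≠ p → G < |(p' : ℝ) - p|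

open Classical in
theorem one_row {z Q r H G t₀ y : ℕ} {b : ℕ → ℕ} {F : Finset ℕ} (hGt : G ≤ t₀) (htH : t₀ + G ≤ H)
    (hyz : y < z)
    (hrb : ∀ p : ℕ, p.Prime → p ≤ y → p ∉ F → p ∣ r + b p)
    (hQ : ∀ p : ℕ, p.Prime → p ≤ y → p ∉ F → p ∣ Q) {m : ℕ} (hm : z < m * Q)
    (hk : ∀ k ∈ (range (H + 1)).filter (fun k => ∀ p : ℕ, p.Prime → p ≤ y → p ∉ F →
      ¬ k ≡ b p [MOD p]), k ≠ t₀ → ¬ (m * Q + (r + k)).Prime) :
    Alone G (m * Q + (r + t₀)) := by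
  intro p' hp' hne
  by_contra hcon
  push Not at hcon
  rw [abs_le] at hcon
  push_cast at hcon
  obtain ⟨h1, h2⟩ := hcon
  have h3 : m * Q + r + t₀ ≤ p' + G := by
    have : (m : ℝ) * Q + r + t₀ ≤ p' + G := by linarith
    exact_mod_cast this
  have h4 : p' ≤ m * Q + r + t₀ + G := by
    have : (p' : ℝ) ≤ m * Q + r + t₀ + G := by linarith
    exact_mod_cast this
  obtain ⟨k, hkd⟩ : ∃ k, p' = m * Q + (r + k) := ⟨p' - (m * Q + r), by omega⟩
  have hkH : k ≤ H := by omega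
  have hkt : k ≠ t₀ := fun h => hne (by rw [hkd, h])
  by_cases hU : ∀ p : ℕ, p.Prime → p ≤ y → p ∉ F → ¬ k ≡ b p [MOD p]
  · exact hk k (mem_filter.2 ⟨mem_range.2 (by omega), hU⟩) hkt (hkd ▸ hp')
  · push Not at hU
    obtain ⟨p, hp, hpy, hpF, hkb⟩ := hU
    have h5 : p ∣ p' := by
      rw [hkd]
      have h6 : p ∣ m * Q := (hQ p hp hpy hpF).mul_left m
      have h7 : p ∣ r + k := by
        have h8 : r + k ≡ r + b p [MOD p] := hkb.add_left r
        exact Nat.modEq_zero_iff_dvd.1 (h8.trans (Nat.modEq_zero_iff_dvd.2 (hrb p hp hpy hpF)))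
      exact dvd_add h6 h7
    have h6 := (Nat.prime_dvd_prime_iff_eq hp hp').1 h5
    omega

/-- facts on the modulus -/
theorem Qfacts {z y q p₀ : ℕ} (hy : y = ⌊Real.log z / 64⌋₊) (hlz : 10000 ≤ Real.log z) (hly : 100 ≤ Real.log y)
    (hq : 0 < q) (hqz : q ^ 32 ≤ z) :
    0 < q * MM y q p₀ ∧ (q * MM y q p₀) ^ 16 ≤ z ∧ (∀ p : ℕ, p.Prime → p ≤ y → p ≠ p₀ → p ∣ q * MM y q p₀) ∧
      ∑ p ∈ (q * MM y q p₀).primeFactors.filter (fun p => y < p), (1 : ℝ) / p ≤ 1 / 2 := by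
  have hz0 : (0 : ℝ) < z := by
    by_contra h
    have : (z : ℝ) = 0 := le_antisymm (not_lt.1 h) (Nat.cast_nonneg z)
    rw [this, Real.log_zero] at hlz
    linarith
  have hlz0 : 0 < Real.log z := by linarith
  have hy1 : (y : ℝ) ≤ Real.log z / 64 := by rw [hy]; exact Nat.floor_le (by positivity)
  have hy2 : Real.log z / 128 ≤ y := by
    have h1 : Real.log z / 64 < (y : ℝ) + 1 := by rw [hy]; exact Nat.lt_floor_add_one _
    linarith
  have hy0 : (0 : ℝ) < y := by linarith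
  obtain ⟨Q, hQd⟩ : ∃ Q, Q = q * MM y q p₀ := ⟨_, rfl⟩
  rw [← hQd]
  have hQ0 : 0 < Q := by rw [hQd]; exact Nat.mul_pos hq (MM_pos y q p₀)
  have hl4 : Real.log 4 ≤ 1.3863 := by
    have := Real.log_two_lt_d9
    rw [show (4 : ℝ) = 2 ^ 2 by norm_num, Real.log_pow]
    push_cast
    linarith
  have hQ16 : Q ^ 16 ≤ z := by
    have h1 : (MM y q p₀) ^ 32 ≤ z := by
      have h1 : (MM y q p₀) ^ 32 ≤ 4 ^ (32 * y) := by
        calc (MM y q p₀) ^ 32 ≤ (4 ^ y) ^ 32 := Nat.pow_le_pow_left (MM_le y q p₀) 32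
          _ = 4 ^ (32 * y) := by rw [← pow_mul, mul_comm]
      have h2 : ((4 : ℝ)) ^ (32 * y) ≤ z := by
        rw [← Real.log_le_log_iff (by positivity) hz0, Real.log_pow]
        push_cast
        have h3 : (32 * (y : ℝ)) * Real.log 4 ≤ (32 * (y : ℝ)) * 1.3863 :=
          mul_le_mul_of_nonneg_left hl4 (by positivity)
        linarith
      exact h1.trans (by exact_mod_cast h2)
    have h2 : (Q ^ 16) ^ 2 ≤ z ^ 2 := by
      calc (Q ^ 16) ^ 2 = q ^ 32 * (MM y q p₀) ^ 32 := by rw [hQd]; ring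
        _ ≤ z * z := Nat.mul_le_mul hqz h1
        _ = z ^ 2 := by ring
    exact (Nat.pow_le_pow_iff_left (by norm_num : (2 : ℕ) ≠ 0)).1 h2
  refine ⟨hQ0, hQ16, ?_, ?_⟩
  · intro p hp hpy hp0
    rw [hQd]
    by_cases h : p ∣ q
    · exact h.mul_right _
    · exact ((MM_dvd hp).2 ⟨hpy, h, hp0⟩).mul_left _
  · have h1 := big_card (q := Q) (y := y) hQ0
    have h2 : Real.log Q ≤ Real.log z / 16 := by
      have h3 := Real.log_le_log (by positivity) (show ((Q : ℝ) ^ 16) ≤ z by exact_mod_cast hQ16)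
      rw [Real.log_pow] at h3
      push_cast at h3
      linarith
    refine (sum_le_card_nsmul _ _ (1 / (y : ℝ)) fun p hp => ?_).trans ?_
    · exact one_div_le_one_div_of_le hy0 (by exact_mod_cast (mem_filter.1 hp).2.le)
    · rw [nsmul_eq_mul]
      obtain ⟨N, hN⟩ : ∃ N : ℝ, N = ((Q.primeFactors.filter (fun p => y < p)).card : ℝ) := ⟨_, rfl⟩
      rw [← hN] at h1 ⊢
      have hN0 : 0 ≤ N := by rw [hN]; positivity
      rw [mul_one_div, div_le_iff₀ hy0]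
      have h4 : N * 100 ≤ N * Real.log y := mul_le_mul_of_nonneg_left hly hN0
      nlinarith

open Classical in
theorem data (A c₁ : ℝ) (hc₁ : 0 < c₁) : ∃ (η : ℝ) (z0 : ℕ), 0 < η ∧ ∀ z : ℕ, z0 ≤ z → ∀ y : ℕ, y = ⌊Real.log z / 64⌋₊ →
    (10000 ≤ Real.log z ∧ 100 ≤ Real.log y ∧ 100 ≤ y ∧ Real.log z / 128 ≤ y ∧ (y : ℝ) ≤ Real.log z / 64) ∧
    ∀ q : ℕ, 0 < q → q ^ 32 ≤ z → ∑ p ∈ q.primeFactors.filter (fun p => p ≤ y), (1 : ℝ) / p ≤ A →
    ∑ p ∈ q.primeFactors.filter (fun p => p ≤ y ∧ V0 y < Real.log p), (1 : ℝ) / p ≤ A / Real.log y →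
    ∀ p₀ : ℕ, p₀.Prime → ∀ a : ℕ, a.Coprime q →
    ∃ (r t₀ : ℕ) (U : Finset ℕ), r < q * MM y q p₀ ∧ r + t₀ ≡ a [MOD q] ∧ (r + t₀).Coprime (q * MM y q p₀) ∧
      y < t₀ ∧ t₀ ≤ y ^ 2 ∧ (∀ k ∈ U, k ≤ y ^ 2) ∧ (U.card : ℝ) ≤ c₁ * (y / Real.log y) ∧
      ∀ m, y + 1 < m * (q * MM y q p₀) → (∀ k ∈ U, k ≠ t₀ → ¬ (m * (q * MM y q p₀) + (r + k)).Prime) →
        Alone (η * RR y) (m * (q * MM y q p₀) + (r + t₀)) := by
  obtain ⟨η, hη, y₀, hcov⟩ := cov (|A| + 1) (|A| + 1) c₁ (by positivity) hc₁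
  have hev2 : ∀ᶠ z : ℕ in atTop, y₀ ≤ ⌊Real.log z / 64⌋₊ := by
    have h1 : Tendsto (fun z : ℕ => Real.log z / 64) atTop atTop :=
      (Real.tendsto_log_atTop.comp tendsto_natCast_atTop_atTop).atTop_div_const (by norm_num)
    exact (tendsto_nat_floor_atTop.comp h1).eventually_ge_atTop y₀
  have hev3 : ∀ᶠ z : ℕ in atTop, 10000 ≤ Real.log z :=
    (Real.tendsto_log_atTop.comp (tendsto_natCast_atTop_atTop (R := ℝ))).eventually_ge_atTop 10000
  obtain ⟨z4, hz4⟩ := eventually_atTop.1 (hev2.and hev3)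
  refine ⟨η, z4 + 3, hη, fun z hz y hyd => ?_⟩
  obtain ⟨hyy, s3⟩ := hz4 z (by omega)
  rw [← hyd] at hyy
  obtain ⟨f1, f2, f3, hcov'⟩ := hcov y hyy
  have hz0 : (0 : ℝ) < z := by exact_mod_cast (by omega : 0 < z)
  have hlz0 : 0 < Real.log z := by linarith
  have hly0 : 0 < Real.log y := by linarith
  have hy0 : (0 : ℝ) < y := by exact_mod_cast (by omega : 0 < y)
  have hy1 : (y : ℝ) ≤ Real.log z / 64 := by rw [hyd]; exact Nat.floor_le (by positivity)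
  have hy2 : Real.log z / 128 ≤ y := by
    have h1 : Real.log z / 64 < (y : ℝ) + 1 := by rw [hyd]; exact Nat.lt_floor_add_one _
    linarith
  refine ⟨⟨s3, f1, f3, hy2, hy1⟩, fun q hq hqz hqA hqB p₀ hp₀ a ha => ?_⟩
  -- the excluded primes
  obtain ⟨F, hF⟩ : ∃ F : Finset ℕ, F = (Icc 1 y).filter (fun p => p.Prime ∧ (p ∣ q ∨ p = p₀)) := ⟨_, rfl⟩
  have hFm : ∀ p, p ∈ F ↔ p.Prime ∧ p ≤ y ∧ (p ∣ q ∨ p = p₀) := by
    intro p
    rw [hF, mem_filter, mem_Icc]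
    constructor
    · rintro ⟨⟨_, h1⟩, h2, h3⟩
      exact ⟨h2, h1, h3⟩
    · rintro ⟨h2, h1, h3⟩
      exact ⟨⟨h2.one_lt.le, h1⟩, h2, h3⟩
  have hFn : ∀ p, p.Prime → p ≤ y → (p ∉ F ↔ ¬ p ∣ q ∧ p ≠ p₀) := by
    intro p hp hpy
    rw [hFm]
    constructor
    · intro h
      exact ⟨fun h1 => h ⟨hp, hpy, Or.inl h1⟩, fun h1 => h ⟨hp, hpy, Or.inr h1⟩⟩
    · rintro ⟨h1, h2⟩ ⟨_, _, h3 | h3⟩
      · exact h1 h3
      · exact h2 h3
  have hp₀1 : (1 : ℝ) / p₀ ≤ 1 := by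
    rw [div_le_one (by exact_mod_cast hp₀.pos)]
    exact_mod_cast hp₀.one_lt.le
  have hFs : ∑ p ∈ F, (1 : ℝ) / p ≤ |A| + 1 := by
    have h1 : F ⊆ q.primeFactors.filter (fun p => p ≤ y) ∪ {p₀} := by
      intro p hp
      rw [hFm] at hp
      rw [mem_union, mem_filter, Nat.mem_primeFactors, mem_singleton]
      rcases hp.2.2 with h | h
      · exact Or.inl ⟨⟨hp.1, h, hq.ne'⟩, hp.2.1⟩
      · exact Or.inr h
    have h2 := sum_le_sum_of_subset_of_nonneg (f := fun p : ℕ => (1 : ℝ) / p) h1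
      (fun _ _ _ => by positivity)
    have h3 : ∑ p ∈ q.primeFactors.filter (fun p => p ≤ y) ∪ {p₀}, (1 : ℝ) / p ≤
        ∑ p ∈ q.primeFactors.filter (fun p => p ≤ y), (1 : ℝ) / p + ∑ p ∈ ({p₀} : Finset ℕ), (1 : ℝ) / p := by
      rw [← sum_union_inter]
      have : 0 ≤ ∑ p ∈ q.primeFactors.filter (fun p => p ≤ y) ∩ {p₀}, (1 : ℝ) / p :=
        sum_nonneg fun _ _ => by positivity
      linarith
    rw [sum_singleton] at h3
    have := le_abs_self A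
    linarith
  have hFt : ∑ p ∈ F.filter (fun p : ℕ => V0 y < Real.log p), (1 : ℝ) / p ≤ (|A| + 1) / Real.log y := by
    have h1 : F.filter (fun p : ℕ => V0 y < Real.log p) ⊆
        q.primeFactors.filter (fun p => p ≤ y ∧ V0 y < Real.log p) ∪
          ({p₀} : Finset ℕ).filter (fun p : ℕ => V0 y < Real.log p) := by
      intro p hp
      rw [mem_filter, hFm] at hp
      rw [mem_union, mem_filter, mem_filter, Nat.mem_primeFactors, mem_singleton]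
      rcases hp.1.2.2 with h | h
      · exact Or.inl ⟨⟨hp.1.1, h, hq.ne'⟩, hp.1.2.1, hp.2⟩
      · exact Or.inr ⟨h, hp.2⟩
    have h2 := sum_le_sum_of_subset_of_nonneg (f := fun p : ℕ => (1 : ℝ) / p) h1
      (fun _ _ _ => by positivity)
    have h3 : ∑ p ∈ q.primeFactors.filter (fun p => p ≤ y ∧ V0 y < Real.log p) ∪
          ({p₀} : Finset ℕ).filter (fun p : ℕ => V0 y < Real.log p), (1 : ℝ) / p ≤
        ∑ p ∈ q.primeFactors.filter (fun p => p ≤ y ∧ V0 y < Real.log p), (1 : ℝ) / p +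
          ∑ p ∈ ({p₀} : Finset ℕ).filter (fun p : ℕ => V0 y < Real.log p), (1 : ℝ) / p := by
      rw [← sum_union_inter]
      have : 0 ≤ ∑ p ∈ q.primeFactors.filter (fun p => p ≤ y ∧ V0 y < Real.log p) ∩
          ({p₀} : Finset ℕ).filter (fun p : ℕ => V0 y < Real.log p), (1 : ℝ) / p :=
        sum_nonneg fun _ _ => by positivity
      linarith
    have h4 : ∑ p ∈ ({p₀} : Finset ℕ).filter (fun p : ℕ => V0 y < Real.log p), (1 : ℝ) / p ≤
        1 / Real.log y := by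
      by_cases hp : V0 y < Real.log p₀
      · rw [filter_singleton, if_pos hp, sum_singleton]
        apply one_div_le_one_div_of_le hly0
        have hp00 : (0 : ℝ) < p₀ := by exact_mod_cast hp₀.pos
        have h5 := Real.exp_le_exp.2 hp.le
        rw [Real.exp_log hp00] at h5
        have h6 : Real.log y ≤ Real.log y ^ 4 := le_self_pow₀ (by linarith) (by norm_num)
        linarith
      · rw [filter_singleton, if_neg hp, sum_empty]
        positivity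
    have h5 : A / Real.log y ≤ |A| / Real.log y := div_le_div_of_nonneg_right (le_abs_self A) hly0.le
    rw [add_div]
    linarith
  obtain ⟨H, G, t₀, b, hHy, hyt, ht₀, hGt, htH, hηG, hb, hU⟩ :=
    hcov' F (fun p hp => ((hFm p).1 hp).1) hFs hFt
  obtain ⟨U, hUd⟩ : ∃ U, U = (range (H + 1)).filter (fun k => ∀ p : ℕ, p.Prime → p ≤ y → p ∉ F →
        ¬ k ≡ b p [MOD p]) := ⟨_, rfl⟩
  rw [← hUd] at hU
  obtain ⟨r, hrQ, hra, hrb⟩ := crt y q p₀ t₀ a hq b (fun p hp hpy h1 h2 =>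
    (hb p hp hpy ((hFn p hp hpy).2 ⟨h1, h2⟩)).1)
  obtain ⟨Q, hQd⟩ : ∃ Q, Q = q * MM y q p₀ := ⟨_, rfl⟩
  rw [← hQd] at hrQ ⊢
  obtain ⟨hQ0, hQ16, hQy, _⟩ := Qfacts (p₀ := p₀) hyd s3 f1 hq hqz
  rw [← hQd] at hQ0 hQ16 hQy
  have hQF : ∀ p : ℕ, p.Prime → p ≤ y → p ∉ F → p ∣ Q := fun p hp hpy hpF =>
    hQy p hp hpy ((hFn p hp hpy).1 hpF).2
  have hrF : ∀ p : ℕ, p.Prime → p ≤ y → p ∉ F → p ∣ r + b p := fun p hp hpy hpF =>
    hrb p hp hpy ((hFn p hp hpy).1 hpF).1 ((hFn p hp hpy).1 hpF).2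
  -- coprimality
  have hco : (r + t₀).Coprime Q := by
    apply Nat.Coprime.symm
    apply Nat.coprime_of_dvd
    intro p hp hpQ hph
    rw [hQd, hp.dvd_mul] at hpQ
    rcases hpQ with h | h
    · have h1 : a ≡ 0 [MOD p] := ((hra.of_dvd h).symm).trans (Nat.modEq_zero_iff_dvd.2 hph)
      have h2 := Nat.dvd_gcd (Nat.modEq_zero_iff_dvd.1 h1) h
      rw [ha] at h2
      exact hp.one_lt.ne' (Nat.dvd_one.1 h2)
    · obtain ⟨h1, h2, h3⟩ := (MM_dvd hp).1 h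
      have h4 := hrb p hp h1 h2 h3
      refine (hb p hp h1 ((hFn p hp h1).2 ⟨h2, h3⟩)).2 ?_
      have h5 : r + t₀ ≡ r + b p [MOD p] :=
        (Nat.modEq_zero_iff_dvd.2 hph).trans (Nat.modEq_zero_iff_dvd.2 h4).symm
      exact Nat.ModEq.add_left_cancel' r h5
  refine ⟨r, t₀, U, hrQ, hra, hco, hyt, by omega, ?_, hU, ?_⟩
  · intro k hk
    rw [hUd, mem_filter, mem_range] at hk
    omega
  · intro m hm hk
    rw [hUd] at hk
    intro p' hp' hne'
    exact lt_of_le_of_lt hηG (one_row (z := y + 1) (y := y) (b := b) (F := F) hGt htH (by omega) hrF hQF hm hk p' hp' hne')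

end Pool.Agent.H92.I
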