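import Pool.Agent.H92.I.Dat

set_option autoImplicit false

/-! Comparison of the scales (from `Pool.Agent.R529.LG`, library; repeated because the library module cannot be imported
together with the modules used in the other cases). -/

namespace Pool.Agent.H92.I

open Finset Filter
open Pool.Agent.TH101.RG (V0)
open Pool.Agent.R529.LG (RR)

/-- Rankin's function -/
noncomputable def RX (x : ℝ) : ℝ :=
  Real.log x * Real.log (Real.log x) * Real.log (Real.log (Real.log (Real.log x))) /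
    (Real.log (Real.log (Real.log x))) ^ 2

/-- the threshold for the medium primes -/
noncomputable def TX (x : ℝ) : ℝ :=
  Real.log (Real.log x) * Real.log (Real.log (Real.log (Real.log x))) /
    (40 * Real.log (Real.log (Real.log x)))

theorem compare (C : ℝ) (hC : 1 ≤ C) : ∀ᶠ X : ℝ in atTop, ∀ y : ℝ, Real.log X / C ≤ y → y ≤ Real.log X →
    Real.log y ≤ Real.log (Real.log X) ∧ 0 < Real.log y ∧ TX X ≤ V0 y ∧ RX X / (4 * C) ≤ RR y := by
  have t1 := Real.tendsto_log_atTop
  have t2 : Tendsto (fun y : ℝ => Real.log (Real.log y)) atTop atTop := t1.comp t1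
  have t3 : Tendsto (fun y : ℝ => Real.log (Real.log (Real.log y))) atTop atTop := t1.comp t2
  have t4 : Tendsto (fun y : ℝ => Real.log (Real.log (Real.log (Real.log y)))) atTop atTop := t1.comp t3
  filter_upwards [t1.eventually_ge_atTop (2 * C), t2.eventually_ge_atTop (2 * Real.log C + 4),
    t3.eventually_ge_atTop 4, t4.eventually_ge_atTop 4] with X e1 e2 e3 e4
  intro y hy1 hy2
  obtain ⟨T, hT⟩ : ∃ T, T = Real.log X := ⟨_, rfl⟩
  rw [← hT] at hy1 hy2 e1 e2 e3 e4
  have hT0 : 0 < T := by linarith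
  have hC0 : 0 < C := by linarith
  have hlC : 0 ≤ Real.log C := Real.log_nonneg hC
  obtain ⟨u, hu⟩ : ∃ u, u = Real.log T := ⟨_, rfl⟩
  rw [← hu] at e2 e3 e4
  obtain ⟨v, hv⟩ : ∃ v, v = Real.log u := ⟨_, rfl⟩
  rw [← hv] at e3 e4
  obtain ⟨w, hw⟩ : ∃ w, w = Real.log v := ⟨_, rfl⟩
  rw [← hw] at e4
  have hu0 : 0 < u := by linarith
  have hv0 : 0 < v := by linarith
  have hw0 : 0 < w := by linarith
  have hy0 : 0 < y := lt_of_lt_of_le (by positivity) hy1
  have hl2 := Real.log_two_lt_d9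
  have a1 : Real.log y ≤ u := by rw [hu]; exact Real.log_le_log hy0 hy2
  have a2 : u / 2 ≤ Real.log y := by
    have h1 := Real.log_le_log (by positivity) hy1
    rw [Real.log_div hT0.ne' hC0.ne', ← hu] at h1
    linarith
  have hly0 : 0 < Real.log y := by linarith
  have a3 : Real.log (Real.log y) ≤ v := by rw [hv]; exact Real.log_le_log hly0 a1
  have a4 : v / 2 ≤ Real.log (Real.log y) := by
    have h1 := Real.log_le_log (by positivity) a2
    rw [Real.log_div hu0.ne' (by norm_num), ← hv] at h1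
    linarith
  have hlly0 : 0 < Real.log (Real.log y) := by linarith
  have a5 : w / 2 ≤ Real.log (Real.log (Real.log y)) := by
    have h1 := Real.log_le_log (by positivity) a4
    rw [Real.log_div hv0.ne' (by norm_num), ← hw] at h1
    linarith
  have hllly0 : 0 < Real.log (Real.log (Real.log y)) := by linarith
  refine ⟨?_, hly0, ?_, ?_⟩
  · rw [← hT, ← hu]; exact a1
  · unfold TX V0
    rw [← hT, ← hu, ← hv, ← hw]
    calc u * w / (40 * v) = (u / 2) * (w / 2) / (10 * v) := by field_simp; ring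
      _ ≤ Real.log y * Real.log (Real.log (Real.log y)) / (10 * Real.log (Real.log y)) := by gcongr
  · unfold RX RR
    rw [← hT, ← hu, ← hv, ← hw]
    calc T * u * w / v ^ 2 / (4 * C) = (T / C) * (u / 2) * (w / 2) / v ^ 2 := by field_simp; ring
      _ ≤ y * Real.log y * Real.log (Real.log (Real.log y)) / Real.log (Real.log y) ^ 2 := by gcongr

theorem floor_facts (k B : ℕ) (hk : 1 ≤ k) : ∀ᶠ X : ℝ in atTop, ∀ z : ℕ, z = ⌊X ^ (1 / (k : ℝ))⌋₊ →
    Real.log X / (2 * k) ≤ Real.log z ∧ (z : ℝ) ^ k ≤ X ∧ X ^ (1 / (2 * (k : ℝ))) ≤ z ∧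
      Real.log z ≤ Real.log X ∧ Real.log X ^ B ≤ Real.log z ^ (B + 1) ∧ 10000 ≤ Real.log z := by
  have hk0 : (0 : ℝ) < k := by exact_mod_cast hk
  have hk1 : (1 : ℝ) ≤ k := by exact_mod_cast hk
  have h1 : ∀ᶠ X : ℝ in atTop, 2 ≤ X ^ (1 / (2 * (k : ℝ))) :=
    (tendsto_rpow_atTop (by positivity)).eventually_ge_atTop 2
  filter_upwards [h1, eventually_ge_atTop 2, Real.tendsto_log_atTop.eventually_ge_atTop ((2 * (k : ℝ)) ^ (B + 1)),
    Real.tendsto_log_atTop.eventually_ge_atTop (20000 * (k : ℝ))]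
    with X e1 e2 e3 e4
  intro z hz
  have hX0 : 0 < X := by linarith
  have hX1 : 1 ≤ X := by linarith
  obtain ⟨s, hs⟩ : ∃ s, s = X ^ (1 / (2 * (k : ℝ))) := ⟨_, rfl⟩
  rw [← hs] at e1
  have hs2 : X ^ (1 / (k : ℝ)) = s ^ 2 := by
    rw [hs, ← Real.rpow_natCast, ← Real.rpow_mul hX0.le]
    congr 1
    field_simp
    norm_num
  rw [hs2] at hz
  have hz1 : (z : ℝ) ≤ s ^ 2 := by rw [hz]; exact Nat.floor_le (by positivity)
  have hz2 : s ^ 2 < z + 1 := by rw [hz]; exact Nat.lt_floor_add_one _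
  have hz3 : s ≤ z := by nlinarith
  have hz0 : (0 : ℝ) < z := by linarith
  have hls : Real.log s = Real.log X / (2 * k) := by
    rw [hs, Real.log_rpow hX0]
    ring
  have c1 : Real.log X / (2 * k) ≤ Real.log z := by
    rw [← hls]
    exact Real.log_le_log (by linarith) hz3
  have c2 : (z : ℝ) ^ k ≤ X := by
    calc (z : ℝ) ^ k ≤ (s ^ 2) ^ k := pow_le_pow_left₀ hz0.le hz1 k
      _ = X := by
        rw [← hs2, ← Real.rpow_natCast, ← Real.rpow_mul hX0.le, one_div,
          inv_mul_cancel₀ hk0.ne', Real.rpow_one]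
  have c4 : Real.log z ≤ Real.log X := by
    apply Real.log_le_log hz0
    refine le_trans ?_ c2
    exact le_self_pow₀ (by linarith) (by omega)
  have hlX0 : 0 < Real.log X := Real.log_pos (by linarith)
  refine ⟨c1, c2, by rw [← hs]; exact hz3, c4, ?_, ?_⟩
  · calc Real.log X ^ B = Real.log X ^ B * (2 * (k : ℝ)) ^ (B + 1) / (2 * (k : ℝ)) ^ (B + 1) := by
          field_simp
      _ ≤ Real.log X ^ B * Real.log X / (2 * (k : ℝ)) ^ (B + 1) := by gcongr
      _ = (Real.log X / (2 * k)) ^ (B + 1) := by rw [div_pow, pow_succ (Real.log X)]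
      _ ≤ _ := pow_le_pow_left₀ (by positivity) c1 _
  · refine le_trans ?_ c1
    rw [le_div_iff₀ (by positivity)]
    linarith


end Pool.Agent.H92.I
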