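import Pool.Agent.H92.G.Pipe
import Pool.Agent.H92.G.LowX

set_option autoImplicit false

/-! The number of primes in the class: no exceptional modulus. -/

namespace Pool.Agent.H92.I

open Finset Filter
open Pool.Agent.H262R3.Lk

theorem phi_zero {u : ℝ} (hu : 0 < u) (hu1 : u ≤ 1) : Pool.Agent.H378R2.Phi u = 0 := by
  unfold Pool.Agent.H378R2.Phi
  apply max_eq_left
  have h1 : Real.log u ≤ 0 := Real.log_nonpos hu.le hu1
  rw [abs_of_nonpos (by linarith)]
  linarith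

theorem pc_rows (c5 : ℝ) (hc5 : 0 < c5) : ∃ Y0 : ℝ, ∀ Y : ℝ, Y0 ≤ Y → ∀ Q b : ℕ, 0 < Q → (Q : ℝ) ^ 8 ≤ Y → (b : ℝ) ≤ Y / 2 →
    c5 / (Q.totient : ℝ) ≤ pc Y Q b / Y → ∀ N : ℕ, N = ⌊3 * Y / Q⌋₊ → Real.sqrt Y ≤ N ∧
    c5 / 24 * (N * ((Q : ℝ) / Q.totient / Real.log N)) ≤
      (((Icc 1 N).filter (fun m => N < m * m ∧ (m * Q + b).Prime)).card : ℝ) := by
  classical
  have h1 := (isLittleO_log_rpow_atTop (r := (1 / 4 : ℝ)) (by norm_num)).def (show (0 : ℝ) < c5 / 16 by positivity)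
  obtain ⟨Y0, hY0⟩ := eventually_atTop.1 h1
  refine ⟨max Y0 (13 ^ 8), fun Y hY Q b hQ hQY hb hpc N hN => ?_⟩
  have h2 := hY0 Y ((le_max_left _ _).trans hY)
  have hY13 : (13 : ℝ) ^ 8 ≤ Y := (le_max_right _ _).trans hY
  have hYp : (0 : ℝ) < Y := lt_of_lt_of_le (by positivity) hY13
  obtain ⟨t, ht⟩ : ∃ t : ℝ, t = Y ^ (1 / 8 : ℝ) := ⟨_, rfl⟩
  have ht0 : 0 < t := by rw [ht]; exact Real.rpow_pos_of_pos hYp _
  have hYt : Y = t ^ 8 := by
    rw [ht, ← Real.rpow_natCast, ← Real.rpow_mul hYp.le]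
    norm_num
  have ht13 : 13 ≤ t := by
    rw [hYt] at hY13
    exact le_of_pow_le_pow_left₀ (by norm_num) ht0.le hY13
  have hQt : (Q : ℝ) ≤ t := by
    rw [hYt] at hQY
    exact le_of_pow_le_pow_left₀ (by norm_num) ht0.le hQY
  have hY4 : Y ^ (1 / 4 : ℝ) = t ^ 2 := by
    rw [hYt, ← Real.rpow_natCast t 8, ← Real.rpow_mul ht0.le, ← Real.rpow_natCast t 2]
    norm_num
  have hsq : Real.sqrt Y = t ^ 4 := by
    rw [hYt, show t ^ 8 = (t ^ 4) ^ 2 by ring]
    exact Real.sqrt_sq (by positivity)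
  have hY1 : (1 : ℝ) < Y := by
    rw [hYt]
    exact one_lt_pow₀ (by linarith) (by norm_num)
  have hlY : 0 < Real.log Y := Real.log_pos hY1
  rw [hY4, Real.norm_of_nonneg hlY.le, Real.norm_of_nonneg (by positivity)] at h2
  have hl3 : Real.log (3 * Y) ≤ 2 * Real.log Y := by
    rw [Real.log_mul (by norm_num) hYp.ne']
    have : Real.log 3 ≤ Real.log Y := Real.log_le_log (by norm_num) (by linarith)
    linarith
  have hl30 : 0 < Real.log (3 * Y) := Real.log_pos (by linarith)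
  have hQr : (1 : ℝ) ≤ Q := by exact_mod_cast hQ
  have hQ0 : (0 : ℝ) < Q := by linarith
  have hφ0 : (0 : ℝ) < Q.totient := by exact_mod_cast Nat.totient_pos.2 hQ
  have hφQ : (Q.totient : ℝ) ≤ Q := by exact_mod_cast Nat.totient_le Q
  have hNle : (N : ℝ) ≤ 3 * Y / Q := by rw [hN]; exact Nat.floor_le (by positivity)
  have hNge : 3 * Y / Q < N + 1 := by rw [hN]; exact Nat.lt_floor_add_one _
  have hYQ : t ^ 7 ≤ Y / Q := by
    rw [le_div_iff₀ hQ0, hYt]
    calc t ^ 7 * Q ≤ t ^ 7 * t := mul_le_mul_of_nonneg_left hQt (by positivity)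
      _ = t ^ 8 := by ring
  have hN7 : t ^ 7 ≤ N := by
    have h3 : 3 * Y / Q = Y / Q + 2 * (Y / Q) := by ring
    have h4 : 1 ≤ t ^ 7 := one_le_pow₀ (by linarith)
    linarith
  have hN4 : t ^ 4 ≤ N := (pow_le_pow_right₀ (by linarith) (by norm_num)).trans hN7
  refine ⟨by rw [hsq]; exact hN4, ?_⟩
  obtain ⟨S0, hS0⟩ : ∃ S0 : Finset ℕ, S0 = (Icc 1 ⌊3 * Y⌋₊).filter (fun n => n ≡ b [MOD Q] ∧ n.Prime ∧ Y < n) := ⟨_, rfl⟩
  -- the rows
  have hrows : S0.card ≤ ((Icc 1 N).filter (fun m => N < m * m ∧ (m * Q + b).Prime)).card := by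
    have hsub : S0 ⊆ ((Icc 1 N).filter (fun m => N < m * m ∧ (m * Q + b).Prime)).image (fun m => m * Q + b) := by
      intro n hn
      rw [hS0, mem_filter, mem_Icc] at hn
      obtain ⟨⟨hn1, hn2⟩, hn3, hn4, hn5⟩ := hn
      have h4Q : 12 * (Q : ℝ) < Y := by
        have h3 : t * t ≤ Y := by
          rw [hYt]
          calc t * t = t ^ 2 := by ring
            _ ≤ t ^ 8 := pow_le_pow_right₀ (by linarith) (by norm_num)
        have h4 : 13 * t ≤ t * t := mul_le_mul_of_nonneg_right ht13 ht0.le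
        linarith
      have hbn : b < n := by
        have : (b : ℝ) < n := by linarith
        exact_mod_cast this
      obtain ⟨m, hm⟩ := (Nat.modEq_iff_dvd' hbn.le).1 hn3.symm
      have hnm : n = m * Q + b := by
        have : n - b = m * Q := by rw [hm, mul_comm]
        omega
      have hnr : (n : ℝ) = m * Q + b := by rw [hnm]; push_cast; ring
      have hn2' : (n : ℝ) ≤ 3 * Y := (Nat.le_floor_iff (by positivity)).1 hn2
      have hmN : m ≤ N := by
        rw [hN]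
        apply Nat.le_floor
        rw [le_div_iff₀ hQ0]
        have : (0 : ℝ) ≤ b := Nat.cast_nonneg b
        linarith
      have hm1 : 1 ≤ m := by
        rcases Nat.eq_zero_or_pos m with h | h
        · rw [h] at hnm
          omega
        · exact h
      rw [mem_image]
      refine ⟨m, ?_, hnm.symm⟩
      rw [mem_filter, mem_Icc]
      refine ⟨⟨hm1, hmN⟩, ?_, by rw [← hnm]; exact hn4⟩
      have hmr : Y / (2 * Q) ≤ m := by
        rw [div_le_iff₀ (by positivity)]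
        have : (m : ℝ) * (2 * Q) = 2 * (m * Q) := by ring
        rw [this]
        linarith
      have h5 : (N : ℝ) < (m : ℝ) * m := by
        calc (N : ℝ) ≤ 3 * Y / Q := hNle
          _ < Y / (2 * Q) * (Y / (2 * Q)) := by
              rw [div_mul_div_comm, div_lt_div_iff₀ hQ0 (by positivity)]
              have h6 : Y * Y * Q - 3 * Y * (2 * Q * (2 * Q)) = Y * Q * (Y - 12 * Q) := by ring
              have h7 : 0 < Y * Q * (Y - 12 * Q) := by
                apply mul_pos (by positivity)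
                linarith
              linarith
          _ ≤ _ := mul_le_mul hmr hmr (by positivity) (Nat.cast_nonneg m)
      exact_mod_cast h5
    exact (card_le_card hsub).trans card_image_le
  -- the weights
  have hpcle : pc Y Q b ≤ S0.card * Real.log (3 * Y) + 2 * Real.sqrt (3 * Y) * Real.log (3 * Y) := by
    have h3 : pc Y Q b ≤ ∑ n ∈ Icc 1 ⌊3 * Y⌋₊, ((if n ∈ S0 then Real.log (3 * Y) else 0) +
        (if ¬ n.Prime then ArithmeticFunction.vonMangoldt n else 0)) := by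
      unfold pc
      rw [sum_filter]
      apply sum_le_sum
      intro n hn
      rw [mem_Icc] at hn
      have hn0 : (0 : ℝ) < n := by exact_mod_cast hn.1
      have hn3 : (n : ℝ) ≤ 3 * Y := (Nat.le_floor_iff (by positivity)).1 hn.2
      have hL : (0 : ℝ) ≤ ArithmeticFunction.vonMangoldt n := ArithmeticFunction.vonMangoldt_nonneg
      have hP0 : 0 ≤ Pool.Agent.H378R2.Phi (n / Y) := le_max_left _ _
      have hP1 : Pool.Agent.H378R2.Phi (n / Y) ≤ 1 := by
        unfold Pool.Agent.H378R2.Phi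
        apply max_le (by norm_num)
        have := abs_nonneg (Real.log (n / Y) - 1 / 2)
        linarith
      have e1 : (0 : ℝ) ≤ (if n ∈ S0 then Real.log (3 * Y) else 0) := by split_ifs; exact hl30.le; exact le_rfl
      have e2 : (0 : ℝ) ≤ (if ¬ n.Prime then ArithmeticFunction.vonMangoldt n else 0) := by
        split_ifs <;> first | exact le_rfl | exact hL
      by_cases hm : n ≡ b [MOD Q]
      · rw [if_pos hm]
        by_cases hp : n.Prime
        · by_cases hYn : Y < n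
          · have hmem : n ∈ S0 := by
              rw [hS0, mem_filter, mem_Icc]
              exact ⟨hn, hm, hp, hYn⟩
            rw [if_pos hmem]
            have h4 : ArithmeticFunction.vonMangoldt n ≤ Real.log (3 * Y) := by
              rw [ArithmeticFunction.vonMangoldt_apply_prime hp]
              exact Real.log_le_log hn0 hn3
            have h5 : Pool.Agent.H378R2.Phi (n / Y) * ArithmeticFunction.vonMangoldt n ≤ 1 * ArithmeticFunction.vonMangoldt n :=
              mul_le_mul_of_nonneg_right hP1 hL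
            linarith
          · push Not at hYn
            rw [phi_zero (by positivity) (by rw [div_le_one hYp]; exact hYn), zero_mul]
            linarith
        · rw [if_pos hp]
          have h5 : Pool.Agent.H378R2.Phi (n / Y) * ArithmeticFunction.vonMangoldt n ≤ 1 * ArithmeticFunction.vonMangoldt n :=
            mul_le_mul_of_nonneg_right hP1 hL
          linarith
      · rw [if_neg hm]
        linarith
    rw [sum_add_distrib] at h3
    have h4 : ∑ n ∈ Icc 1 ⌊3 * Y⌋₊, (if n ∈ S0 then Real.log (3 * Y) else 0) = S0.card * Real.log (3 * Y) := by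
      rw [sum_ite_mem, sum_const, nsmul_eq_mul, inter_eq_right.2]
      rw [hS0]
      exact filter_subset _ _
    have h5 : ∑ n ∈ Icc 1 ⌊3 * Y⌋₊, (if ¬ n.Prime then ArithmeticFunction.vonMangoldt n else 0) ≤
        2 * Real.sqrt (3 * Y) * Real.log (3 * Y) := by
      have h6 := Chebyshev.psi_sub_theta_le (x := 3 * Y) (by linarith)
      rw [Chebyshev.psi_sub_theta_eq_sum_not_prime, sum_filter] at h6
      exact h6
    linarith
  have hs3 : Real.sqrt (3 * Y) ≤ 2 * t ^ 4 := by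
    rw [← hsq, show (2 : ℝ) * Real.sqrt Y = Real.sqrt 4 * Real.sqrt Y by
      rw [show (4 : ℝ) = 2 ^ 2 by norm_num, Real.sqrt_sq (by norm_num)], ← Real.sqrt_mul (by norm_num)]
    apply Real.sqrt_le_sqrt
    linarith
  have herr : 2 * Real.sqrt (3 * Y) * Real.log (3 * Y) ≤ c5 / 2 * (Y / Q.totient) := by
    have h3 : 2 * Real.sqrt (3 * Y) * Real.log (3 * Y) ≤ 2 * (2 * t ^ 4) * (2 * (c5 / 16 * t ^ 2)) := by
      have : Real.log (3 * Y) ≤ 2 * (c5 / 16 * t ^ 2) := by linarith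
      gcongr
    have h4 : t ^ 7 ≤ Y / Q.totient := hYQ.trans (div_le_div_of_nonneg_left hYp.le hφ0 hφQ)
    have h5 : t ^ 6 ≤ t ^ 7 := pow_le_pow_right₀ (by linarith) (by norm_num)
    calc 2 * Real.sqrt (3 * Y) * Real.log (3 * Y) ≤ 2 * (2 * t ^ 4) * (2 * (c5 / 16 * t ^ 2)) := h3
      _ = c5 / 2 * t ^ 6 := by ring
      _ ≤ c5 / 2 * (Y / Q.totient) := mul_le_mul_of_nonneg_left (h5.trans h4) (by positivity)
  have hmain : c5 / 2 * (Y / Q.totient) ≤ S0.card * Real.log (3 * Y) := by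
    have h3 : c5 * (Y / Q.totient) ≤ pc Y Q b := by
      rw [le_div_iff₀ hYp] at hpc
      calc c5 * (Y / Q.totient) = c5 / Q.totient * Y := by ring
        _ ≤ _ := hpc
    linarith
  have hlN : 0 < Real.log N := Real.log_pos (by
    have : (1 : ℝ) < t ^ 4 := one_lt_pow₀ (by linarith) (by norm_num)
    linarith)
  have hlN2 : Real.log Y ≤ 2 * Real.log N := by
    have h3 : Real.log Y = 2 * Real.log (t ^ 4) := by
      rw [hYt, Real.log_pow, Real.log_pow]; push_cast; ring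
    rw [h3]
    have := Real.log_le_log (by positivity) hN4
    linarith
  have h4 : c5 / 24 * (N * ((Q : ℝ) / Q.totient / Real.log N)) * Real.log (3 * Y) ≤ S0.card * Real.log (3 * Y) := by
    refine le_trans ?_ hmain
    have h5 : (N : ℝ) * Q ≤ 3 * Y := by
      rw [le_div_iff₀ hQ0] at hNle
      exact hNle
    have h6 : Real.log (3 * Y) ≤ 4 * Real.log N := by linarith
    calc c5 / 24 * (N * ((Q : ℝ) / Q.totient / Real.log N)) * Real.log (3 * Y)
        ≤ c5 / 24 * (N * ((Q : ℝ) / Q.totient / Real.log N)) * (4 * Real.log N) :=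
          mul_le_mul_of_nonneg_left h6 (by positivity)
      _ = c5 / 6 * (N * Q / Q.totient) := by field_simp; ring
      _ ≤ c5 / 6 * (3 * Y / Q.totient) := by gcongr
      _ = _ := by ring
  have h5 := le_of_mul_le_mul_right h4 hl30
  exact h5.trans (by exact_mod_cast hrows)

/-- no exceptional modulus -/
theorem ne_iso (c1 δ0 : ℝ) (hc1 : 0 < c1) (hδ0 : 0 < δ0) : ∃ (A : ℕ) (c : ℝ) (M0 : ℕ), 0 < c ∧ ∀ M : ℕ, M0 ≤ M →
    ∀ Q b : ℕ, 0 < Q → Q ≤ M → b ≤ 2 * M → b.Coprime Q →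
    (∀ χ : DirichletCharacter ℂ Q, χ ≠ 1 → ∀ σ : ℝ, 0 < σ → σ * Real.log ((M ^ 32 : ℕ) : ℝ) ≤ δ0 →
      c1 ≤ ‖Lj (M ^ 32) χ 0 σ‖) →
    ∃ N : ℕ, M ^ 4 ≤ N ∧ N ≤ M ^ A ∧ c * (N * ((Q : ℝ) / Q.totient / Real.log N)) ≤
      (((Icc 1 N).filter (fun m => N < m * m ∧ (m * Q + b).Prime)).card : ℝ) := by
  classical
  obtain ⟨δ, c, hδ, hδ1, hc, hcomb⟩ := h_comb c1 hc1
  obtain ⟨η, R, c', hη, hηR, hc', hwin⟩ := h_win c hc
  obtain ⟨c5, hc5, hsel⟩ := h_sel η R c' hη hηR hc'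
  obtain ⟨κ, hκdef⟩ : ∃ κ : ℝ, κ = min (δ / 32) (min (δ0 / 32) (η / 128)) := ⟨_, rfl⟩
  have hκ0 : 0 < κ := by
    rw [hκdef]
    exact lt_min (by positivity) (lt_min (by positivity) (by positivity))
  have hκ2 : κ ≤ δ / 32 := by rw [hκdef]; exact min_le_left _ _
  have hκ3 : κ ≤ δ0 / 32 := by
    rw [hκdef]; exact (min_le_right _ _).trans (min_le_left _ _)
  have hκ4 : κ ≤ η / 128 := by
    rw [hκdef]; exact (min_le_right _ _).trans (min_le_right _ _)
  have hR0 : 0 < R := hη.trans hηR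
  obtain ⟨A2, hA2⟩ : ∃ A2 : ℕ, A2 = ⌈R / (2 * κ)⌉₊ := ⟨_, rfl⟩
  have hA2r : R / (2 * κ) ≤ A2 := by rw [hA2]; exact Nat.le_ceil _
  obtain ⟨Y0, hpr⟩ := pc_rows c5 hc5
  obtain ⟨M1, hM1⟩ := exists_nat_ge (max Y0 3)
  refine ⟨A2 + 2, c5 / 24, M1, by positivity, ?_⟩
  intro M hM Q b hQ hQM hb hcop hchar
  have hMr1 : (M1 : ℝ) ≤ M := by exact_mod_cast hM
  have hM3' : (3 : ℝ) ≤ M := (le_max_right _ _).trans (hM1.trans hMr1)
  have hMY : Y0 ≤ M := (le_max_left _ _).trans (hM1.trans hMr1)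
  have hM3 : 3 ≤ M := by exact_mod_cast hM3'
  have hM0 : (0 : ℝ) < M := by linarith
  have hL1 : 1 ≤ Real.log M := by
    rw [Real.le_log_iff_exp_le hM0]
    have := Real.exp_one_lt_d9
    linarith
  have hL0 : 0 < Real.log M := by linarith
  obtain ⟨z, hz⟩ : ∃ z : ℕ, z = M ^ 32 := ⟨_, rfl⟩
  rw [← hz] at hchar
  have hz32 : 32 ≤ z := by
    rw [hz]
    calc 32 ≤ 3 ^ 32 := by norm_num
      _ ≤ M ^ 32 := Nat.pow_le_pow_left hM3 32
  have hlogz : Real.log (z : ℝ) = 32 * Real.log M := by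
    rw [hz]; push_cast; rw [Real.log_pow]; norm_num
  have hq8 : Q ^ 8 ≤ z := by
    rw [hz]
    calc Q ^ 8 ≤ M ^ 8 := Nat.pow_le_pow_left hQM 8
      _ ≤ M ^ 32 := Nat.pow_le_pow_right (by omega) (by norm_num)
  obtain ⟨σ, hσdef⟩ : ∃ σ : ℝ, σ = κ / Real.log M := ⟨_, rfl⟩
  have hσ0 : 0 < σ := by rw [hσdef]; positivity
  have hσz : σ * Real.log (z : ℝ) = 32 * κ := by
    rw [hlogz, hσdef]
    field_simp
  have hσδ : σ * Real.log (z : ℝ) ≤ δ := by rw [hσz]; linarith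
  have hσδ0 : σ * Real.log (z : ℝ) ≤ δ0 := by rw [hσz]; linarith
  have hση : σ * Real.log (z : ℝ) ≤ η / 4 := by rw [hσz]; linarith
  have hwins : ∀ _t : Fin 1, c' / (Q.totient * σ ^ 3) ≤
      ∑ k ∈ Icc ⌈η / σ⌉₊ ⌊R / σ⌋₊, (k : ℝ) ^ 2 * Real.exp (-(σ * k / 2)) * wn Q b k := by
    intro t
    apply hwin z Q b σ hz32 hQ hq8 hcop hσ0 hση
    apply hcomb z Q b σ hz32 hQ hq8 hcop hσ0 hσδ
    intro χ hχ
    exact hchar χ hχ σ hσ0 hσδ0
  obtain ⟨l, hl1, hl2, hcard⟩ := hsel 1 z σ (fun _ => Q) (fun _ => b) (fun _ => 0) hz32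
    (fun t => ⟨hQ, hq8, hcop⟩) hσ0 hση (fun _ => by push_cast; rw [mul_zero]; linarith) hwins
  have hmass : c5 / (Q.totient : ℝ) ≤ wn Q b l := by
    by_contra hcon
    have h1 : (univ : Finset (Fin 1)).filter (fun _ => c5 / (Q.totient : ℝ) ≤ wn Q b (l + 0)) = ∅ := by
      rw [filter_eq_empty_iff]
      intro t _ h2
      exact hcon h2
    rw [h1, card_empty] at hcard
    push_cast at hcard
    linarith
  obtain ⟨Y, hY⟩ : ∃ Y : ℝ, Y = Real.exp ((l : ℝ) / 2) := ⟨_, rfl⟩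
  have hmass' : c5 / (Q.totient : ℝ) ≤ pc Y Q b / Y := by rw [hY]; exact hmass
  have hYpos : 0 < Y := by rw [hY]; exact Real.exp_pos _
  have hY8 : (M : ℝ) ^ 8 ≤ Y := by
    have h1 : (M : ℝ) ^ 8 = Real.exp (8 * Real.log M) := by
      rw [← Real.rpow_natCast, Real.rpow_def_of_pos hM0]
      push_cast
      ring_nf
    rw [h1, hY]
    apply Real.exp_le_exp.2
    have h2 : η / (2 * σ) = η / (2 * κ) * Real.log M := by
      rw [hσdef]; field_simp
    rw [h2] at hl1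
    have h4 : 16 ≤ η / (2 * κ) := by
      rw [le_div_iff₀ (by positivity)]
      linarith
    have h5 : 16 * Real.log M ≤ l := (mul_le_mul_of_nonneg_right h4 hL0.le).trans hl1
    linarith
  have hY2 : Y ≤ (M : ℝ) ^ A2 := by
    have h1 : (M : ℝ) ^ A2 = Real.exp ((A2 : ℝ) * Real.log M) := by
      rw [← Real.rpow_natCast, Real.rpow_def_of_pos hM0]
      ring_nf
    rw [h1, hY]
    apply Real.exp_le_exp.2
    have h2 : R / σ = 2 * (R / (2 * κ) * Real.log M) := by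
      rw [hσdef]; field_simp
    rw [h2] at hl2
    have h5 : R / (2 * κ) * Real.log M ≤ A2 * Real.log M := mul_le_mul_of_nonneg_right hA2r hL0.le
    linarith
  have hYM : (M : ℝ) ≤ Y := (le_self_pow₀ (by linarith) (by norm_num)).trans hY8
  have hQ8 : (Q : ℝ) ^ 8 ≤ Y := (pow_le_pow_left₀ (Nat.cast_nonneg Q) (by exact_mod_cast hQM) 8).trans hY8
  obtain ⟨N, hN⟩ : ∃ N : ℕ, N = ⌊3 * Y / Q⌋₊ := ⟨_, rfl⟩
  have hbY : (b : ℝ) ≤ Y / 2 := by
    have h3 : (b : ℝ) ≤ 2 * M := by exact_mod_cast hb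
    have h4 : (9 : ℝ) * M ≤ (M : ℝ) ^ 8 := by
      have h5 : (M : ℝ) ^ 3 ≤ (M : ℝ) ^ 8 := pow_le_pow_right₀ (by linarith) (by norm_num)
      have h6 : (9 : ℝ) * M ≤ (M : ℝ) ^ 3 := by
        have h7 : (9 : ℝ) ≤ (M : ℝ) ^ 2 := by nlinarith
        calc (9 : ℝ) * M ≤ (M : ℝ) ^ 2 * M := mul_le_mul_of_nonneg_right h7 hM0.le
          _ = _ := by ring
      linarith
    linarith
  obtain ⟨h1, h2⟩ := hpr Y (hMY.trans hYM) Q b hQ hQ8 hbY hmass' N hN
  refine ⟨N, ?_, ?_, h2⟩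
  · have h3 : (M : ℝ) ^ 4 ≤ N := by
      refine le_trans ?_ h1
      apply Real.le_sqrt_of_sq_le
      rw [← pow_mul]
      exact hY8
    exact_mod_cast h3
  · have h3 : (N : ℝ) ≤ (M : ℝ) ^ (A2 + 2) := by
      have h4 : (N : ℝ) ≤ 3 * Y / Q := by rw [hN]; exact Nat.floor_le (by positivity)
      have h5 : 3 * Y / Q ≤ 3 * Y := div_le_self (by linarith) (by exact_mod_cast hQ)
      calc (N : ℝ) ≤ 3 * Y := h4.trans h5
        _ ≤ M * (M : ℝ) ^ A2 := by
            apply mul_le_mul hM3' hY2 (by linarith) hM0.le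
        _ ≤ (M : ℝ) ^ (A2 + 2) := by
            rw [← pow_succ']
            exact pow_le_pow_right₀ (by linarith) (by omega)
    exact_mod_cast h3

end Pool.Agent.H92.I
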