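import Pool.Agent.H92.I.RtP

set_option autoImplicit false

/-! The exceptional case with `χ b = 1`. -/

open Finset Filter Topology

namespace Pool.Agent.H92.I

open Pool.Agent.H92.G
open Pool.Agent.H262R2.UM Pool.Agent.H262R2.UP

/-- the bad rows of one shift -/
theorem bad_sub {Q b t₀ k W N w : ℕ} {P : Finset ℕ} (hP : ∀ p ∈ P, p.Prime ∧ p ≤ w) (hQ : 1 ≤ Q)
    (hw : ∀ n, N < n * n → w + t₀ < n) :
    (GS W 0 N P (Ri Q b)).filter (fun n => N < n * n ∧ (Q * n + b + k - t₀).Prime) ⊆ GS W 0 N P (Rt2 Q b t₀ k) := by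
  intro n hn
  rw [mem_filter, mem_GS] at hn
  obtain ⟨⟨h1, h2, h3⟩, h4, h5⟩ := hn
  rw [mem_GS]
  refine ⟨h1, h2, fun p hp hmem => ?_⟩
  unfold Rt2 at hmem
  rw [mem_filter, mem_range] at hmem
  obtain ⟨h6, _, h7 | h7⟩ := hmem
  · apply h3 p hp
    unfold Ri
    rw [mem_filter, mem_range]
    exact ⟨h6, h7⟩
  · have h8 := hw n h4
    have h9 : n ≤ Q * n := Nat.le_mul_of_pos_left n hQ
    obtain ⟨v, hv⟩ : ∃ v, v = Q * n + b + k - t₀ := ⟨_, rfl⟩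
    rw [← hv] at h5
    have hv1 : v + t₀ = Q * n + b + k := by omega
    have hvw : w < v := by omega
    have h10 : Q * n + b + k ≡ t₀ [MOD p] := by
      have : Q * n + b + k ≡ Q * (n % p) + b + k [MOD p] :=
        ((((Nat.mod_modEq n p).symm).mul_left Q).add_right b).add_right k
      exact this.trans h7
    have h11 : v + t₀ ≡ 0 + t₀ [MOD p] := by rw [hv1, zero_add]; exact h10
    have h12 : p ∣ v := Nat.modEq_zero_iff_dvd.1 (Nat.ModEq.add_right_cancel' t₀ h11)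
    have h13 := (Nat.prime_dvd_prime_iff_eq (hP p hp).1 h5).1 h12
    have := (hP p hp).2
    omega

/-- the values of the weight at primes -/
theorem lam_prime {f : ℕ} {χ : ℕ → ℝ} (h : Chr f χ) {p : ℕ} (hp : p.Prime) : lam χ p ≤ 2 := by
  have h1 := lam_le_card h p
  rw [hp.divisors, card_pair hp.one_lt.ne] at h1
  exact_mod_cast h1

set_option maxHeartbeats 4000000 in
theorem plus_iso : ∃ (u s0 : ℕ) (c₁ : ℝ), 3 ≤ u ∧ 0 < c₁ ∧ ∀ s : ℕ, s0 ≤ s → ∀ (f : ℕ) (χ : ℕ → ℝ) (L : ℝ), Chr f χ →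
    Tends χ L → 1 / (s : ℝ) ≤ L → ∀ Q b : ℕ, 0 < Q → Q ≤ s → 1 ≤ b → b ≤ Q → b.Coprime Q → f ∣ Q → χ b = 1 →
    ∑ r ∈ (Ioc (s ^ 16) (s ^ (16 * (u + 1)))).filter (fun r => r.Prime ∧ χ r = 1), 1 / (r : ℝ) ≤ 1 / 8 →
    ∀ y : ℕ, s0 ≤ y → (y : ℝ) ≤ Real.log s → y ^ 2 ≤ s → (∀ p : ℕ, p.Prime → p ≤ y → p ∣ Q) →
    ∑ p ∈ Q.primeFactors.filter (fun p => y < p), (1 : ℝ) / p ≤ 1 / 2 →
    ∀ (t₀ : ℕ) (U : Finset ℕ), t₀ ≤ y ^ 2 → (∀ k ∈ U, k ≤ y ^ 2) → (U.card : ℝ) ≤ c₁ * (y / Real.log y) →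
    (s : ℝ) ^ (8 * u) ≤ (((Icc 1 (s ^ (16 * u))).filter (fun n => s ^ (16 * u) < n * n ∧ (Q * n + b).Prime ∧
      ∀ k ∈ U, k ≠ t₀ → ¬ (Q * n + b + k - t₀).Prime)).card : ℝ) := by
  classical
  obtain ⟨C, hC1, hF⟩ := flc
  obtain ⟨bb, hbb⟩ : ∃ bb : ℕ, bb = C * (2 * 2 + 1) := ⟨_, rfl⟩
  have hbb1 : 1 ≤ bb := by rw [hbb]; exact Nat.mul_pos hC1 (by omega)
  obtain ⟨z0, hz0⟩ : ∃ z0 : ℕ, z0 = C * (2 * 2 + 1) + 8 * 2 + 8 := ⟨_, rfl⟩
  obtain ⟨ZW, hZWd⟩ : ∃ ZW : Finset ℕ, ZW = Pz z0 := ⟨_, rfl⟩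
  have hZWp : ∀ p ∈ ZW, p.Prime := fun p hp => by rw [hZWd] at hp; exact (mem_Pz.1 hp).2
  obtain ⟨W, hW⟩ : ∃ W : ℕ, W = ∏ p ∈ ZW, p := ⟨_, rfl⟩
  have hW0 : 0 < W := by rw [hW]; exact prod_pos fun p hp => (hZWp p hp).pos
  obtain ⟨c6, hc6, hVl⟩ := V_low 2
  obtain ⟨C2, hC2, hrat⟩ := V_ratio2
  obtain ⟨e, he⟩ : ∃ e : ℕ, e = 32 * (C * bb) := ⟨_, rfl⟩
  obtain ⟨u, hu⟩ : ∃ u : ℕ, u = e + 3 := ⟨_, rfl⟩
  obtain ⟨s1, hs1⟩ := eventually_atTop.1 (ev_s (4 * W * 2 ^ ZW.card / c6) (4 * 2 + 2) (100 + 2 ^ u + z0))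
  refine ⟨u, s1 + z0 + 100, min 1 (1 / (24 * C2)), by omega, lt_min one_pos (by positivity), ?_⟩
  intro s hs f χ L h hL hLs Q b hQ hQs hb1 hbQ hcop hfa hχ hsum y hys hyl hy2s hall hQsum t₀ U ht0 hUy hU
  obtain ⟨ev1, ev2, ev3⟩ := hs1 s (by omega)
  have h2u : 0 < 2 ^ u := by positivity
  have hs17 : 100 ≤ s := by omega
  have hsr : (100 : ℝ) ≤ s := by exact_mod_cast hs17
  have hs0 : (0 : ℝ) < s := by linarith
  have hs1' : (1 : ℝ) ≤ s := by linarith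
  obtain ⟨w, hw⟩ : ∃ w : ℕ, w = s ^ 16 := ⟨_, rfl⟩
  have hsw : s ≤ w := by rw [hw]; exact Nat.le_self_pow (by norm_num) s
  have hwr : (w : ℝ) = (s : ℝ) ^ 16 := by rw [hw]; push_cast; rfl
  obtain ⟨P, hPd⟩ : ∃ P : Finset ℕ, P = Pz w \ Pz z0 := ⟨_, rfl⟩
  have hPiff : ∀ p, p ∈ P ↔ p.Prime ∧ z0 < p ∧ p ≤ w := by
    intro p
    rw [hPd, Finset.mem_sdiff, mem_Pz, mem_Pz]
    constructor
    · rintro ⟨⟨h1, h2⟩, h3⟩
      refine ⟨h2, ?_, h1⟩
      by_contra hcon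
      exact h3 ⟨not_lt.1 hcon, h2⟩
    · rintro ⟨h1, h2, h3⟩
      exact ⟨⟨h3, h1⟩, fun h4 => by omega⟩
  have hPm : ∀ p ∈ P, p.Prime ∧ z0 < p ∧ p ≤ w := fun p hp => (hPiff p).1 hp
  obtain ⟨J, hJ1, hJ2⟩ := J_ex w (by omega)
  have hJs : (J : ℝ) + 2 ≤ s := by
    refine (J_le (s := s) (by omega) ?_).trans ev2
    calc 2 ^ 2 ^ J ≤ w ^ 2 := hJ2
      _ = s ^ 32 := by rw [hw, ← pow_mul]
  have hlev : (((2 ^ 2 ^ J) ^ (C * bb) : ℕ) : ℝ) ≤ (s : ℝ) ^ e := by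
    have h1 : (2 ^ 2 ^ J) ^ (C * bb) ≤ s ^ e := by
      calc (2 ^ 2 ^ J) ^ (C * bb) ≤ (w ^ 2) ^ (C * bb) := Nat.pow_le_pow_left hJ2 _
        _ = s ^ e := by
            rw [hw, he, ← pow_mul, ← pow_mul]
            congr 1
            ring
    exact_mod_cast h1
  have hdisj : Disjoint ZW P := by
    rw [hZWd, hPd]
    exact disjoint_sdiff
  have hν : ∀ p ∈ ZW, ¬ p ∣ Q * 0 + b := by
    intro p hp hd
    rw [mul_zero, zero_add] at hd
    have hpp := hZWp p hp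
    rw [hZWd, mem_Pz] at hp
    have h1 := Nat.dvd_gcd hd (hall p hpp (by omega))
    rw [hcop] at h1
    exact hpp.one_lt.ne' (Nat.dvd_one.1 h1)
  obtain ⟨N, hN⟩ : ∃ N : ℕ, N = s ^ (16 * u) := ⟨_, rfl⟩
  have hNr : (N : ℝ) = (s : ℝ) ^ (16 * u) := by rw [hN]; push_cast; rfl
  rw [← hN]
  obtain ⟨D, hD⟩ : ∃ D : ℕ, D = Nat.sqrt (Q * N + b) := ⟨_, rfl⟩
  have hval : Q * N + b ≤ 2 * s ^ (16 * u + 1) := by
    have h1 : Q * N ≤ s * N := Nat.mul_le_mul_right N hQs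
    have h2 : b ≤ s := hbQ.trans hQs
    have h3 : s * N = s ^ (16 * u + 1) := by rw [hN, pow_succ, mul_comm]
    have h4 : s ≤ s ^ (16 * u + 1) := Nat.le_self_pow (by omega) s
    omega
  have hval2 : Q * N + b ≤ s ^ (16 * u + 2) := by
    refine hval.trans ?_
    calc 2 * s ^ (16 * u + 1) ≤ s * s ^ (16 * u + 1) := Nat.mul_le_mul_right _ (by omega)
      _ = s ^ (16 * u + 2) := by ring
  have hvaly : Q * N + b < w ^ (u + 1) := by
    refine lt_of_le_of_lt hval2 ?_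
    rw [hw, ← pow_mul]
    exact Nat.pow_lt_pow_right (by omega) (by omega)
  have hDs : D ≤ s ^ (8 * u + 1) := by
    rw [hD]
    have h1 : Q * N + b ≤ s ^ (8 * u + 1) * s ^ (8 * u + 1) := by
      refine hval2.trans (le_of_eq ?_)
      rw [← pow_add]
      congr 1
      ring
    calc Nat.sqrt (Q * N + b) ≤ Nat.sqrt (s ^ (8 * u + 1) * s ^ (8 * u + 1)) := Nat.sqrt_le_sqrt h1
      _ = _ := Nat.sqrt_eq _
  have hDN : D ≤ N := by
    refine hDs.trans ?_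
    rw [hN]
    exact Nat.pow_le_pow_right (by omega) (by omega)
  have hDr : (D : ℝ) ≤ (s : ℝ) ^ (8 * u + 1) := by exact_mod_cast hDs
  -- the sets
  obtain ⟨G1, hG1⟩ : ∃ G1 : Finset ℕ, G1 = GS W 0 N P (Ri Q b) := ⟨_, rfl⟩
  obtain ⟨Gc, hGc⟩ : ∃ Gc : Finset ℕ, Gc = G1.filter (fun n => ¬ (Q * n + b).Prime) := ⟨_, rfl⟩
  obtain ⟨Gp, hGp⟩ : ∃ Gp : Finset ℕ, Gp = G1.filter (fun n => (Q * n + b).Prime) := ⟨_, rfl⟩
  -- the data of the primes
  have hrd := root_data (a := Q) (b := b) (W := W) (ν := 0) (y := w) hQ (hQs.trans hsw) (ZW := ZW)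
    (fun p hp => ⟨hZWp p hp, by
      rw [hZWd] at hp
      have := (mem_Pz.1 hp).1
      omega⟩) hW
  have hrd' : ∀ r : ℕ, ∃ t : ℕ × ℕ × ℕ, r.Prime → w < r → t.1 < r ∧ r * t.2.1 = Q * t.1 + b ∧
      t.1 + r * t.2.2 ≡ 0 [MOD W] := by
    intro r
    by_cases h1 : r.Prime ∧ w < r
    · obtain ⟨x1, x2, x3, h2⟩ := hrd r h1.1 h1.2
      exact ⟨(x1, x2, x3), fun _ _ => h2⟩
    · exact ⟨(0, 0, 0), fun h2 h3 => absurd ⟨h2, h3⟩ h1⟩
  choose tt htt using hrd'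
  have hall' : ∀ p : ℕ, p.Prime → p ≤ w → p ∈ ZW ∨ p ∈ P := by
    intro p hp hpy
    by_cases h1 : p ∈ ZW
    · exact Or.inl h1
    · right
      rw [hPd, Finset.mem_sdiff, mem_Pz]
      refine ⟨⟨hpy, hp⟩, ?_⟩
      rw [← hZWd]
      exact h1
  have hhit : ∀ p ∈ P, ∀ n, p ∣ Q * n + b → n % p ∈ Ri Q b p := by
    intro p hp n hpd
    unfold Ri
    rw [mem_filter, mem_range]
    refine ⟨Nat.mod_lt _ (hPm p hp).1.pos, ?_⟩
    have h1 : Q * (n % p) + b ≡ Q * n + b [MOD p] := ((Nat.mod_modEq n p).mul_left _).add_right _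
    exact (h1.dvd_iff dvd_rfl).2 hpd
  have hrem := rem_plus' h hQ hfa hcop.symm hb1 hbQ (y := w) (by omega) (hQs.trans hsw)
    (ZW := ZW) (P := P) (fun p hp => ⟨hZWp p hp, by
      rw [hZWd] at hp
      have := (mem_Pz.1 hp).1
      omega⟩) hW hall' (Ri Q b) hhit 0 N u hν hvaly Gc (by
        rw [hGc, ← hG1]; exact filter_subset _ _) (by
        intro n hn
        rw [hGc, mem_filter] at hn
        exact hn.2)
    (fun r => (tt r).1) (fun r => (tt r).2.1) (fun r => (tt r).2.2) htt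
  rw [← hD] at hrem
  -- the lower bound
  have hRtk : ∀ p ∈ P, (Ri Q b p).card ≤ 2 ∧ ∀ c ∈ Ri Q b p, c < p := by
    intro p hp
    refine ⟨?_, fun c hc => mem_range.1 (mem_filter.1 hc).1⟩
    by_cases h1 : p ∣ Q
    · rw [Ri_empty (hPm p hp).1 hcop h1, card_empty]
      omega
    · rw [Ri_card (hPm p hp).1 ((Nat.coprime_comm).1 ((Nat.Prime.coprime_iff_not_dvd (hPm p hp).1).2 h1))]
      omega
  have hPJ : ∀ p ∈ P, p.Prime ∧ z0 < p ∧ p ≤ 2 ^ 2 ^ J := fun p hp =>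
    ⟨(hPm p hp).1, (hPm p hp).2.1, (hPm p hp).2.2.trans hJ1⟩
  have hL0 : 0 ≤ L := le_trans (by positivity) hLs
  have hlow := svp hF h hL hL0 hQ hfa hcop.symm hbQ hχ 2 bb J z0 ZW P hZWp hPJ hdisj (Ri Q b) hRtk
    (by omega) (by omega) hC1 0 N hν
  rw [← hW, ← hD] at hlow
  obtain ⟨V, hV⟩ : ∃ V : ℝ, V = ∏ p ∈ P, (1 - gg χ Q b (Ri Q b) p) := ⟨_, rfl⟩
  obtain ⟨LP, hLP⟩ : ∃ LP : ℝ, LP = L * ∏ p ∈ ZW ∪ Q.primeFactors, (1 - χ p / p) := ⟨_, rfl⟩
  obtain ⟨F, hFd⟩ : ∃ F : ℝ, F = ((J : ℝ) + 2) * ((((2 ^ 2 ^ J) ^ (C * bb) : ℕ) : ℝ) * (((2 ^ 2 ^ J) ^ (C * bb) : ℕ) : ℝ) *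
        (17 * (Q : ℝ) ^ 2)) := ⟨_, rfl⟩
  have hF0 : 0 ≤ F := by rw [hFd]; positivity
  have har : (Q : ℝ) ≤ s := by exact_mod_cast hQs
  have hFs : F ≤ (s : ℝ) ^ (2 * e + 4) := by
    rw [hFd]
    calc ((J : ℝ) + 2) * ((((2 ^ 2 ^ J) ^ (C * bb) : ℕ) : ℝ) * (((2 ^ 2 ^ J) ^ (C * bb) : ℕ) : ℝ) * (17 * (Q : ℝ) ^ 2)) ≤
        s * ((s : ℝ) ^ e * (s : ℝ) ^ e * (s * (s : ℝ) ^ 2)) := by
          gcongr
          linarith
      _ = _ := by ring
  rw [← hV, ← hLP] at hlow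
  have hV0 : c6 / (Real.log w) ^ (4 * 2 + 2) ≤ V := by
    rw [hV]
    apply hVl f χ h Q b w P (Ri Q b) (by omega)
    intro p hp
    exact ⟨(hPm p hp).1, by have := (hPm p hp).2.1; omega, (hPm p hp).2.2, (hRtk p hp).1⟩
  have hlogs : 0 < Real.log s := Real.log_pos (by linarith)
  have hlogw : Real.log w = 16 * Real.log s := by
    rw [hwr, Real.log_pow]; norm_num
  rw [hlogw] at hV0
  have hVpos : 0 < V := lt_of_lt_of_le (by positivity) hV0
  have hZc : 1 / ((2 : ℝ) ^ ZW.card * Q) ≤ ∏ p ∈ ZW ∪ Q.primeFactors, (1 - χ p / p) :=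
    prod_low h hQ ZW hZWp
  have hprod0 : 0 ≤ ∏ p ∈ ZW ∪ Q.primeFactors, (1 - χ p / p) := le_trans (by positivity) hZc
  have hLP0 : 0 ≤ LP := by rw [hLP]; exact mul_nonneg hL0 hprod0
  have hai0 : (0 : ℝ) < Q := by exact_mod_cast hQ
  have hWr : (0 : ℝ) < W := by exact_mod_cast hW0
  have hNpos : (0 : ℝ) < N := by rw [hNr]; positivity
  obtain ⟨AV, hAV⟩ : ∃ AV : ℝ, AV = 2 * ((N : ℝ) / W) * LP * V := ⟨_, rfl⟩
  have hAV0 : 0 ≤ AV := by rw [hAV]; positivity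
  have hhalf : (1 / 2 : ℝ) ^ bb ≤ 1 / 2 := by
    calc (1 / 2 : ℝ) ^ bb ≤ (1 / 2 : ℝ) ^ 1 := pow_le_pow_of_le_one (by norm_num) (by norm_num) hbb1
      _ = 1 / 2 := pow_one _
  have e0 : 1 / 2 * AV - F * ((D : ℝ) + 1) ≤ ∑ n ∈ G1, lam χ (Q * n + b) := by
    have h1 := (abs_le.1 hlow).1
    have h2 : (1 / 2 : ℝ) ^ bb * AV ≤ 1 / 2 * AV := mul_le_mul_of_nonneg_right hhalf hAV0
    have h3 : ((J : ℝ) + 2) * ((((2 ^ 2 ^ J) ^ (C * bb) : ℕ) : ℝ) * (((2 ^ 2 ^ J) ^ (C * bb) : ℕ) : ℝ) *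
        (17 * (Q : ℝ) ^ 2 * ((D : ℝ) + 1))) = F * ((D : ℝ) + 1) := by rw [hFd]; ring
    rw [h3, ← hAV] at h1
    rw [hG1]
    unfold GS
    linarith
  -- the upper bounds
  obtain ⟨X2, hX2⟩ : ∃ X2 : ℝ, X2 = 2 * Q * N := ⟨_, rfl⟩
  have hX20 : 0 ≤ X2 := by rw [hX2]; positivity
  have e1 : ∀ r ∈ (Ioc w D).filter (fun r => r.Prime ∧ χ r = 1),
      2 * ∑ t ∈ GS W (tt r).2.2 (N / r) P (RtR (Ri Q b) r (tt r).1), lam χ (Q * t + (tt r).2.1) ≤
      3 * AV * (1 / r) + 2 * (F * (Real.sqrt X2 * (1 / Real.sqrt r) + 1)) := by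
    intro r hr
    rw [mem_filter, mem_Ioc] at hr
    obtain ⟨⟨hyr', hrD⟩, hrp, hχr⟩ := hr
    obtain ⟨d1, d2, d3⟩ := htt r hrp hyr'
    have hr0 : (0 : ℝ) < r := by exact_mod_cast hrp.pos
    have hrP : ∀ p ∈ P, r.Coprime p := by
      intro p hp
      rw [Nat.coprime_primes hrp (hPm p hp).1]
      have := (hPm p hp).2.2
      omega
    have hb' : (tt r).2.1 ≤ Q := by
      have h1 : r * (tt r).2.1 ≤ r * Q := by
        rw [d2]
        have h2 : Q * (tt r).1 ≤ Q * (r - 1) := Nat.mul_le_mul_left _ (by omega)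
        have h3 : Q * (r - 1) + Q = r * Q := by
          have : r - 1 + 1 = r := by omega
          calc Q * (r - 1) + Q = Q * (r - 1 + 1) := by ring
            _ = r * Q := by rw [this, mul_comm]
        omega
      exact Nat.le_of_mul_le_mul_left h1 hrp.pos
    have hcop' : Q.Coprime (tt r).2.1 := by
      have h1 : Q.Coprime (r * (tt r).2.1) := by
        rw [d2]
        have := hcop.symm
        rw [Nat.coprime_iff_gcd_eq_one] at this ⊢
        rw [add_comm, Nat.gcd_add_mul_left_right]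
        exact this
      exact Nat.Coprime.coprime_mul_left_right h1
    have hχ' : χ (tt r).2.1 = 1 := by
      have h1 : χ (r * (tt r).2.1) = 1 := by
        rw [d2, ← hχ]
        apply h.per
        have h3 : Q * (tt r).1 ≡ 0 [MOD f] := Nat.modEq_zero_iff_dvd.2 (hfa.mul_right _)
        have := h3.add_right b
        rwa [zero_add] at this
      rw [h.mul, hχr, one_mul] at h1
      exact h1
    have hν' : ∀ p ∈ ZW, ¬ p ∣ Q * (tt r).2.2 + (tt r).2.1 := by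
      intro p hp hd
      apply hν p hp
      have h1 : p ∣ r * (Q * (tt r).2.2 + (tt r).2.1) := hd.mul_left r
      have h2 : r * (Q * (tt r).2.2 + (tt r).2.1) = Q * ((tt r).1 + r * (tt r).2.2) + b := by
        have : r * (Q * (tt r).2.2 + (tt r).2.1) = Q * (r * (tt r).2.2) + r * (tt r).2.1 := by ring
        rw [this, d2]; ring
      rw [h2] at h1
      have h3 : p ∣ W := by rw [hW]; exact dvd_prod_of_mem _ hp
      have h4 : Q * ((tt r).1 + r * (tt r).2.2) + b ≡ Q * 0 + b [MOD p] :=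
        ((d3.of_dvd h3).mul_left _).add_right _
      exact (h4.dvd_iff dvd_rfl).1 h1
    have hup := svp hF h hL hL0 hQ hfa hcop' hb' hχ' 2 bb J z0 ZW P hZWp hPJ hdisj (RtR (Ri Q b) r (tt r).1)
      (fun p hp => RtR_card (hrP p hp) (hRtk p hp).1) (by omega) (by omega) hC1 (tt r).2.2 (N / r) hν'
    have hVr : ∏ p ∈ P, (1 - gg χ Q (tt r).2.1 (RtR (Ri Q b) r (tt r).1) p) = V := by
      rw [hV]
      apply prod_congr rfl
      intro p hp
      rw [gg_tr (hPm p hp).1 (hrP p hp) d2 (hRtk p hp).2]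
    rw [← hW, hVr, ← hLP] at hup
    have h1 := (abs_le.1 hup).2
    have h2 : ((N / r : ℕ) : ℝ) ≤ (N : ℝ) / r := Nat.cast_div_le
    have h3 : 2 * (((N / r : ℕ) : ℝ) / W) * LP * V ≤ AV * (1 / r) := by
      rw [hAV]
      calc 2 * (((N / r : ℕ) : ℝ) / W) * LP * V ≤ 2 * (((N : ℝ) / r) / W) * LP * V := by gcongr
        _ = _ := by ring
    have h30 : 0 ≤ 2 * (((N / r : ℕ) : ℝ) / W) * LP * V := by positivity
    have h4 : (1 / 2 : ℝ) ^ bb * (2 * (((N / r : ℕ) : ℝ) / W) * LP * V) ≤ 1 / 2 * (AV * (1 / r)) := by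
      calc _ ≤ 1 / 2 * (2 * (((N / r : ℕ) : ℝ) / W) * LP * V) := mul_le_mul_of_nonneg_right hhalf h30
        _ ≤ _ := mul_le_mul_of_nonneg_left h3 (by norm_num)
    have h5 : (Nat.sqrt (Q * (N / r) + (tt r).2.1) : ℝ) ≤ Real.sqrt X2 * (1 / Real.sqrt r) := by
      refine Real.nat_sqrt_le_real_sqrt.trans ?_
      rw [mul_one_div, ← Real.sqrt_div hX20]
      apply Real.sqrt_le_sqrt
      push_cast
      have h6 : (Q : ℝ) * ((N / r : ℕ) : ℝ) ≤ Q * (N / r) := mul_le_mul_of_nonneg_left h2 hai0.le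
      have h7 : ((tt r).2.1 : ℝ) ≤ Q := by exact_mod_cast hb'
      have h8 : (1 : ℝ) ≤ N / r := by
        rw [le_div_iff₀ hr0, one_mul]
        exact_mod_cast hrD.trans hDN
      have h9 : (Q : ℝ) * 1 ≤ Q * (N / r) := mul_le_mul_of_nonneg_left h8 hai0.le
      rw [hX2]
      have e : 2 * (Q : ℝ) * N / r = Q * (N / r) + Q * (N / r) := by ring
      rw [e]
      linarith
    have h6 : ((J : ℝ) + 2) * ((((2 ^ 2 ^ J) ^ (C * bb) : ℕ) : ℝ) * (((2 ^ 2 ^ J) ^ (C * bb) : ℕ) : ℝ) *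
        (17 * (Q : ℝ) ^ 2 * ((Nat.sqrt (Q * (N / r) + (tt r).2.1) : ℝ) + 1))) ≤
        F * (Real.sqrt X2 * (1 / Real.sqrt r) + 1) := by
      have e : ((J : ℝ) + 2) * ((((2 ^ 2 ^ J) ^ (C * bb) : ℕ) : ℝ) * (((2 ^ 2 ^ J) ^ (C * bb) : ℕ) : ℝ) *
        (17 * (Q : ℝ) ^ 2 * ((Nat.sqrt (Q * (N / r) + (tt r).2.1) : ℝ) + 1))) =
        F * ((Nat.sqrt (Q * (N / r) + (tt r).2.1) : ℝ) + 1) := by rw [hFd]; ring
      rw [e]
      apply mul_le_mul_of_nonneg_left _ hF0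
      linarith
    unfold GS
    linarith
  have e2 : ∑ r ∈ (Ioc w D).filter (fun r => r.Prime ∧ χ r = 1), (1 / r : ℝ) ≤ 1 / 8 := by
    refine le_trans ?_ hsum
    apply sum_le_sum_of_subset_of_nonneg
    · intro r hr
      rw [mem_filter, mem_Ioc] at hr ⊢
      refine ⟨⟨by rw [← hw]; exact hr.1.1, hr.1.2.trans (hDs.trans ?_)⟩, hr.2⟩
      exact Nat.pow_le_pow_right (by omega) (by omega)
    · intro r _ _
      positivity
  have e3 : ∑ r ∈ (Ioc w D).filter (fun r => r.Prime ∧ χ r = 1), (F * (Real.sqrt X2 * (1 / Real.sqrt r) + 1)) ≤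
      F * (Real.sqrt X2 * (2 * Real.sqrt D) + D) := by
    calc _ ≤ ∑ r ∈ Icc 1 D, (F * (Real.sqrt X2 * (1 / Real.sqrt r) + 1)) := by
          apply sum_le_sum_of_subset_of_nonneg
          · intro r hr
            rw [mem_filter, mem_Ioc] at hr
            rw [mem_Icc]
            exact ⟨hr.2.1.one_lt.le, hr.1.2⟩
          · intro r _ _
            positivity
      _ = F * (Real.sqrt X2 * ∑ r ∈ Icc 1 D, 1 / Real.sqrt r + D) := by
          rw [← mul_sum, sum_add_distrib, ← mul_sum, sum_const, Nat.card_Icc, Nat.add_sub_cancel, nsmul_eq_mul, mul_one]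
      _ ≤ _ := by
          apply mul_le_mul_of_nonneg_left _ hF0
          apply add_le_add _ le_rfl
          exact mul_le_mul_of_nonneg_left (sum_inv_sqrt D) (Real.sqrt_nonneg _)
  have e4 : Real.sqrt X2 * (2 * Real.sqrt D) ≤ 2 * (s : ℝ) ^ (12 * u + 2) := by
    have h1 : X2 * D ≤ ((s : ℝ) ^ (12 * u + 2)) ^ 2 := by
      rw [hX2, hNr]
      calc 2 * (Q : ℝ) * (s : ℝ) ^ (16 * u) * D ≤ s * s * (s : ℝ) ^ (16 * u) * (s : ℝ) ^ (8 * u + 1) := by
            gcongr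
            linarith
        _ = (s : ℝ) ^ (24 * u + 3) := by
            rw [← sq, ← pow_add, ← pow_add]
            congr 1
            ring
        _ ≤ (s : ℝ) ^ (24 * u + 4) := pow_le_pow_right₀ hs1' (by omega)
        _ = ((s : ℝ) ^ (12 * u + 2)) ^ 2 := by
            rw [← pow_mul]
            congr 1
            ring
    have h2 : Real.sqrt X2 * Real.sqrt D ≤ (s : ℝ) ^ (12 * u + 2) := by
      rw [← Real.sqrt_mul hX20]
      calc Real.sqrt (X2 * D) ≤ Real.sqrt (((s : ℝ) ^ (12 * u + 2)) ^ 2) := Real.sqrt_le_sqrt h1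
        _ = _ := Real.sqrt_sq (by positivity)
    linarith
  have e5 : ∑ n ∈ Gc, lam χ (Q * n + b) ≤
      3 * AV * ∑ r ∈ (Ioc w D).filter (fun r => r.Prime ∧ χ r = 1), (1 / r : ℝ) +
      2 * (F * (2 * (s : ℝ) ^ (12 * u + 2) + D)) + 2 ^ u * ((N : ℝ) / w + 2 * D) := by
    refine hrem.trans ?_
    apply add_le_add _ le_rfl
    refine (sum_le_sum e1).trans ?_
    rw [sum_add_distrib, ← mul_sum, ← mul_sum]
    apply add_le_add le_rfl
    apply mul_le_mul_of_nonneg_left _ (by norm_num)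
    refine e3.trans ?_
    apply mul_le_mul_of_nonneg_left _ hF0
    linarith
  -- the main term is large
  have hmain : 16 * (s : ℝ) ^ (16 * u - 4) ≤ 2 * AV := by
    have h1 : 4 * W * 2 ^ ZW.card * (16 * Real.log s) ^ (4 * 2 + 2) ≤ s * c6 := by
      have h2 : 4 * W * 2 ^ ZW.card / c6 * (16 * Real.log s) ^ (4 * 2 + 2) =
          4 * W * 2 ^ ZW.card * (16 * Real.log s) ^ (4 * 2 + 2) / c6 := by ring
      rw [h2, div_le_iff₀ hc6] at ev1
      exact ev1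
    have h2 : 1 / (s : ℝ) * (1 / (2 ^ ZW.card * s)) ≤ LP := by
      rw [hLP]
      apply mul_le_mul hLs _ (by positivity) hL0
      refine le_trans ?_ hZc
      apply one_div_le_one_div_of_le (by positivity)
      exact mul_le_mul_of_nonneg_left har (by positivity)
    have hlp : 0 < (16 * Real.log s) ^ (4 * 2 + 2) := by positivity
    have h3 : 2 * ((N : ℝ) / W) * (1 / (s : ℝ) * (1 / (2 ^ ZW.card * s))) * (c6 / (16 * Real.log s) ^ (4 * 2 + 2)) ≤ AV := by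
      rw [hAV]
      gcongr
    have h4 : 8 * (s : ℝ) ^ (16 * u - 4) ≤
        2 * ((N : ℝ) / W) * (1 / (s : ℝ) * (1 / (2 ^ ZW.card * s))) * (c6 / (16 * Real.log s) ^ (4 * 2 + 2)) := by
      have e : 2 * ((N : ℝ) / W) * (1 / (s : ℝ) * (1 / (2 ^ ZW.card * s))) * (c6 / (16 * Real.log s) ^ (4 * 2 + 2)) =
          2 * N * c6 / (W * 2 ^ ZW.card * (16 * Real.log s) ^ (4 * 2 + 2) * s ^ 2) := by
        field_simp
      rw [e, le_div_iff₀ (by positivity)]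
      have h5 : (N : ℝ) = (s : ℝ) ^ (16 * u - 4) * s ^ 4 := by
        rw [hNr, ← pow_add]
        congr 1
        omega
      rw [h5]
      have h6 : (0 : ℝ) ≤ (s : ℝ) ^ (16 * u - 4) * s ^ 2 := by positivity
      have h7 := mul_le_mul_of_nonneg_left h1 h6
      have h8 : (s : ℝ) ^ (16 * u - 4) * s ^ 2 * (s * c6) ≤ (s : ℝ) ^ (16 * u - 4) * s ^ 4 * c6 := by
        have h9 : (s : ℝ) ^ 2 * s ≤ s ^ 4 := by
          have : (s : ℝ) ^ 4 = s ^ 2 * s * s := by ring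
          rw [this]
          exact le_mul_of_one_le_right (by positivity) hs1'
        calc (s : ℝ) ^ (16 * u - 4) * s ^ 2 * (s * c6) = (s : ℝ) ^ (16 * u - 4) * (s ^ 2 * s) * c6 := by ring
          _ ≤ _ := by gcongr
      linarith
    linarith
  have hDle : (D : ℝ) ≤ (s : ℝ) ^ (12 * u + 2) := hDr.trans (pow_le_pow_right₀ hs1' (by omega))
  have hone : (1 : ℝ) ≤ (s : ℝ) ^ (12 * u + 2) := one_le_pow₀ hs1'
  have g1 : F * ((D : ℝ) + 1) + 2 * (F * (2 * (s : ℝ) ^ (12 * u + 2) + D)) ≤ (s : ℝ) ^ (2 * e + 12 * u + 7) := by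
    calc F * ((D : ℝ) + 1) + 2 * (F * (2 * (s : ℝ) ^ (12 * u + 2) + D)) = F * (3 * D + 1 + 4 * (s : ℝ) ^ (12 * u + 2)) := by ring
      _ ≤ (s : ℝ) ^ (2 * e + 4) * (s * (s : ℝ) ^ (12 * u + 2)) := by
          apply mul_le_mul hFs _ (by positivity) (by positivity)
          have : 100 * (s : ℝ) ^ (12 * u + 2) ≤ s * (s : ℝ) ^ (12 * u + 2) := mul_le_mul_of_nonneg_right hsr (by positivity)
          linarith
      _ = _ := by
          rw [← pow_succ', ← pow_add]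
          congr 1
          ring
  have g2 : (2 : ℝ) ^ u * ((N : ℝ) / w + 2 * D) ≤ 3 * (s : ℝ) ^ (16 * u - 5) := by
    have h1 : (2 : ℝ) ^ u ≤ s := by
      have : 2 ^ u ≤ s := by omega
      exact_mod_cast this
    have h2 : (N : ℝ) / w = (s : ℝ) ^ (16 * u - 16) := by
      rw [hNr, hwr, div_eq_iff (by positivity), ← pow_add]
      congr 1
      omega
    rw [h2]
    have h3 : (s : ℝ) ^ (16 * u - 16) ≤ (s : ℝ) ^ (16 * u - 6) := pow_le_pow_right₀ hs1' (by omega)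
    have h4 : (D : ℝ) ≤ (s : ℝ) ^ (16 * u - 6) := hDr.trans (pow_le_pow_right₀ hs1' (by omega))
    calc (2 : ℝ) ^ u * ((s : ℝ) ^ (16 * u - 16) + 2 * D) ≤ s * (3 * (s : ℝ) ^ (16 * u - 6)) := by
          apply mul_le_mul h1 (by linarith) (by positivity) hs0.le
      _ = 3 * (s : ℝ) ^ (16 * u - 5) := by
          have : (s : ℝ) ^ (16 * u - 5) = (s : ℝ) ^ (16 * u - 6) * s := by
            rw [← pow_succ]
            congr 1
            omega
          rw [this]; ring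
  have g3 : (s : ℝ) ^ (2 * e + 12 * u + 7) ≤ (s : ℝ) ^ (16 * u - 5) := pow_le_pow_right₀ hs1' (by omega)
  have g4 : 100 * (s : ℝ) ^ (16 * u - 5) ≤ (s : ℝ) ^ (16 * u - 4) := by
    have : (s : ℝ) ^ (16 * u - 4) = s * (s : ℝ) ^ (16 * u - 5) := by
      rw [← pow_succ']
      congr 1
      omega
    rw [this]
    exact mul_le_mul_of_nonneg_right hsr (by positivity)
  have g5 : 0 < (s : ℝ) ^ (16 * u - 5) := by positivity
  have g6 : 2 * (s : ℝ) ^ (8 * u) ≤ (s : ℝ) ^ (16 * u - 5) := by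
    calc 2 * (s : ℝ) ^ (8 * u) ≤ s * (s : ℝ) ^ (8 * u) := mul_le_mul_of_nonneg_right (by linarith) (by positivity)
      _ = (s : ℝ) ^ (8 * u + 1) := by rw [← pow_succ']
      _ ≤ _ := pow_le_pow_right₀ hs1' (by omega)
  -- the size of `U`
  have hy100 : 100 ≤ y := by omega
  have hyr : (100 : ℝ) ≤ y := by exact_mod_cast hy100
  have hly1 : 1 ≤ Real.log y := by
    rw [Real.le_log_iff_exp_le (by linarith)]
    have := Real.exp_one_lt_d9
    linarith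
  have hly0 : 0 < Real.log y := by linarith
  have hUa : (U.card : ℝ) ≤ 1 / (24 * C2) * (y / Real.log y) :=
    hU.trans (mul_le_mul_of_nonneg_right (min_le_right _ _) (by positivity))
  have hUs : (U.card : ℝ) ≤ s := by
    have h1 : (U.card : ℝ) ≤ 1 * (y / Real.log y) :=
      hU.trans (mul_le_mul_of_nonneg_right (min_le_left _ _) (by positivity))
    have h2 : y / Real.log y ≤ (y : ℝ) := div_le_self (by linarith) hly1
    have h3 : Real.log s ≤ s := (Real.log_le_sub_one_of_pos hs0).trans (by linarith)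
    linarith
  -- one shift
  obtain ⟨Bd, hBd⟩ : ∃ Bd : ℕ → Finset ℕ, Bd = fun k => G1.filter (fun n => N < n * n ∧ (Q * n + b + k - t₀).Prime) :=
    ⟨_, rfl⟩
  have hnw : ∀ n : ℕ, N < n * n → w + t₀ < n := by
    intro n hn
    by_contra hcon
    push Not at hcon
    have h1 : n * n ≤ (w + t₀) * (w + t₀) := Nat.mul_le_mul hcon hcon
    have h2 : w + t₀ ≤ s ^ 17 := by
      have h3 : t₀ ≤ w := by omega
      have h4 : s ^ 17 = s * w := by rw [hw]; ring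
      have h5 : 2 * w ≤ s * w := Nat.mul_le_mul_right _ (by omega)
      omega
    have h3 : (w + t₀) * (w + t₀) ≤ s ^ 17 * s ^ 17 := Nat.mul_le_mul h2 h2
    have h4 : s ^ 17 * s ^ 17 ≤ N := by
      rw [hN, ← pow_add]
      exact Nat.pow_le_pow_right (by omega) (by omega)
    omega
  have hbad : ∀ k ∈ U.erase t₀, ∑ n ∈ Bd k, lam χ (Q * n + b) ≤
      3 / 2 * AV * (C2 * (Real.log y / Real.log w)) + F * ((D : ℝ) + 1) := by
    intro k hk
    rw [mem_erase] at hk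
    have hsub : Bd k ⊆ GS W 0 N P (Rt2 Q b t₀ k) := by
      rw [hBd, hG1]
      exact bad_sub (fun p hp => ⟨(hPm p hp).1, (hPm p hp).2.2⟩) hQ hnw
    refine (sum_le_sum_of_subset_of_nonneg hsub fun n _ _ => lam_nonneg h _).trans ?_
    have hRt2k : ∀ p ∈ P, (Rt2 Q b t₀ k p).card ≤ 2 ∧ ∀ c ∈ Rt2 Q b t₀ k p, c < p := fun p hp => Rt2_card (hPm p hp).1
    have hup := svp hF h hL hL0 hQ hfa hcop.symm hbQ hχ 2 bb J z0 ZW P hZWp hPJ hdisj (Rt2 Q b t₀ k) hRt2k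
      (by omega) (by omega) hC1 0 N hν
    rw [← hW, ← hD, ← hLP] at hup
    obtain ⟨V2, hV2⟩ : ∃ V2 : ℝ, V2 = ∏ p ∈ P, (1 - gg χ Q b (Rt2 Q b t₀ k) p) := ⟨_, rfl⟩
    rw [← hV2] at hup
    have hnn : ∀ (Rt : ℕ → Finset ℕ), (∀ p ∈ P, (Rt p).card ≤ 2) → ∀ p ∈ P, 0 ≤ 1 - gg χ Q b Rt p := by
      intro Rt hRt p hp
      have h1 := (gg_bd h Q b Rt (hPm p hp).1 (hRt p hp)).2
      have h2 : (24 : ℝ) ≤ p := by
        have : 24 ≤ p := by have := (hPm p hp).2.1; omega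
        exact_mod_cast this
      have h3 : (2 * 2 : ℕ) / ((p : ℝ) - 1) ≤ 1 := by
        rw [div_le_one (by linarith)]
        push_cast
        linarith
      linarith
    have hV2le : V2 ≤ V * (C2 * (Real.log y / Real.log w)) := by
      rw [hV2, hV]
      have hyw : y ≤ w := (Nat.le_self_pow (by norm_num) y).trans (hy2s.trans hsw)
      exact hrat f χ h Q b t₀ k y z0 w hQ hcop (by omega) (by omega) (by omega) hyw hk.1 (hUy k hk.2) ht0 hQsum P hPiff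
        (hnn _ fun p hp => (hRtk p hp).1) (hnn _ fun p hp => (hRt2k p hp).1)
    have hV20 : 0 ≤ V2 := by
      rw [hV2]
      exact prod_nonneg (hnn _ fun p hp => (hRt2k p hp).1)
    have h1 := (abs_le.1 hup).2
    have h2 : (1 / 2 : ℝ) ^ bb * (2 * ((N : ℝ) / W) * LP * V2) ≤ 1 / 2 * (2 * ((N : ℝ) / W) * LP * V2) :=
      mul_le_mul_of_nonneg_right hhalf (by positivity)
    have h3 : 2 * ((N : ℝ) / W) * LP * V2 ≤ AV * (C2 * (Real.log y / Real.log w)) := by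
      rw [hAV]
      calc 2 * ((N : ℝ) / W) * LP * V2 ≤ 2 * ((N : ℝ) / W) * LP * (V * (C2 * (Real.log y / Real.log w))) :=
            mul_le_mul_of_nonneg_left hV2le (by positivity)
        _ = _ := by ring
    have h4 : ((J : ℝ) + 2) * ((((2 ^ 2 ^ J) ^ (C * bb) : ℕ) : ℝ) * (((2 ^ 2 ^ J) ^ (C * bb) : ℕ) : ℝ) *
        (17 * (Q : ℝ) ^ 2 * ((D : ℝ) + 1))) = F * ((D : ℝ) + 1) := by rw [hFd]; ring
    rw [h4] at h1
    unfold GS
    linarith
  -- the good rows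
  obtain ⟨Gg, hGg⟩ : ∃ Gg : Finset ℕ, Gg = Gp.filter (fun n => N < n * n ∧ ∀ k ∈ U, k ≠ t₀ → ¬ (Q * n + b + k - t₀).Prime) :=
    ⟨_, rfl⟩
  obtain ⟨Gs, hGs⟩ : ∃ Gs : Finset ℕ, Gs = Gp.filter (fun n => ¬ N < n * n) := ⟨_, rfl⟩
  have hcov : Gp ⊆ Gg ∪ (Gs ∪ (U.erase t₀).biUnion Bd) := by
    intro n hn
    rw [mem_union, mem_union, mem_biUnion]
    by_cases h1 : N < n * n
    · by_cases h2 : ∀ k ∈ U, k ≠ t₀ → ¬ (Q * n + b + k - t₀).Prime
      · left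
        rw [hGg, mem_filter]
        exact ⟨hn, h1, h2⟩
      · right; right
        push Not at h2
        obtain ⟨k, hk, hkt, hkp⟩ := h2
        refine ⟨k, mem_erase.2 ⟨hkt, hk⟩, ?_⟩
        rw [hBd]
        rw [hGp, mem_filter] at hn
        exact mem_filter.2 ⟨hn.1, h1, hkp⟩
    · right; left
      rw [hGs, mem_filter]
      exact ⟨hn, h1⟩
  have hln : ∀ n, 0 ≤ lam χ (Q * n + b) := fun n => lam_nonneg h _
  have hs1a : ∑ n ∈ Gp, lam χ (Q * n + b) ≤ ∑ n ∈ Gg, lam χ (Q * n + b) + (∑ n ∈ Gs, lam χ (Q * n + b) +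
      ∑ k ∈ U.erase t₀, ∑ n ∈ Bd k, lam χ (Q * n + b)) := by
    have hun : ∀ A B : Finset ℕ, ∑ n ∈ A ∪ B, lam χ (Q * n + b) ≤ ∑ n ∈ A, lam χ (Q * n + b) + ∑ n ∈ B, lam χ (Q * n + b) := by
      intro A B
      rw [← sum_union_inter]
      have := sum_nonneg (s := A ∩ B) fun n _ => hln n
      linarith
    have hbi : ∀ S : Finset ℕ, ∑ n ∈ S.biUnion Bd, lam χ (Q * n + b) ≤ ∑ k ∈ S, ∑ n ∈ Bd k, lam χ (Q * n + b) := by
      intro S
      induction S using Finset.induction_on with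
      | empty => simp
      | insert a S ha ih =>
        rw [biUnion_insert, sum_insert ha]
        exact (hun _ _).trans (add_le_add le_rfl ih)
    refine (sum_le_sum_of_subset_of_nonneg hcov fun n _ _ => hln n).trans ((hun _ _).trans (add_le_add le_rfl ?_))
    exact (hun _ _).trans (add_le_add le_rfl (hbi _))
  have hGpp : ∀ n ∈ Gp, (Q * n + b).Prime ∧ 1 ≤ n ∧ n ≤ N := by
    intro n hn
    rw [hGp, mem_filter, hG1, mem_GS] at hn
    exact ⟨hn.2, hn.1.1⟩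
  have hgg : ∑ n ∈ Gg, lam χ (Q * n + b) ≤ 2 * (Gg.card : ℝ) := by
    have h1 := sum_le_card_nsmul Gg (fun n => lam χ (Q * n + b)) 2 (fun n hn => by
      rw [hGg, mem_filter] at hn
      exact lam_prime h (hGpp n hn.1).1)
    rw [nsmul_eq_mul] at h1
    linarith
  have hgs : ∑ n ∈ Gs, lam χ (Q * n + b) ≤ 2 * (s : ℝ) ^ (8 * u) := by
    have h1 := sum_le_card_nsmul Gs (fun n => lam χ (Q * n + b)) 2 (fun n hn => by
      rw [hGs, mem_filter] at hn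
      exact lam_prime h (hGpp n hn.1).1)
    rw [nsmul_eq_mul] at h1
    have h2 : Gs.card ≤ s ^ (8 * u) := by
      have h3 : Gs ⊆ Icc 1 (s ^ (8 * u)) := by
        intro n hn
        rw [hGs, mem_filter, not_lt] at hn
        rw [mem_Icc]
        refine ⟨(hGpp n hn.1).2.1, ?_⟩
        have h4 : N = s ^ (8 * u) * s ^ (8 * u) := by
          rw [hN, ← pow_add]
          congr 1
          ring
        rw [h4] at hn
        exact Nat.mul_self_le_mul_self_iff.1 hn.2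
      have h4 := card_le_card h3
      rwa [Nat.card_Icc, Nat.add_sub_cancel] at h4
    have h3 : (Gs.card : ℝ) ≤ (s : ℝ) ^ (8 * u) := by exact_mod_cast h2
    linarith
  have hgb : ∑ k ∈ U.erase t₀, ∑ n ∈ Bd k, lam χ (Q * n + b) ≤ 1 / 16 * AV + (s : ℝ) ^ (16 * u - 5) := by
    refine (sum_le_card_nsmul _ _ _ hbad).trans ?_
    rw [nsmul_eq_mul]
    have h1 : ((U.erase t₀).card : ℝ) ≤ U.card := by exact_mod_cast card_le_card (erase_subset _ _)
    have hlw0 : 0 < Real.log w := by rw [hlogw]; linarith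
    have h2 : (U.card : ℝ) * (3 / 2 * AV * (C2 * (Real.log y / Real.log w))) ≤ 1 / 16 * AV := by
      calc (U.card : ℝ) * (3 / 2 * AV * (C2 * (Real.log y / Real.log w))) ≤
          1 / (24 * C2) * (y / Real.log y) * (3 / 2 * AV * (C2 * (Real.log y / Real.log w))) :=
            mul_le_mul_of_nonneg_right hUa (by positivity)
        _ = 1 / 16 * AV * (y / Real.log w) := by
            field_simp
            ring
        _ ≤ 1 / 16 * AV * 1 := by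
            apply mul_le_mul_of_nonneg_left _ (by positivity)
            rw [div_le_one hlw0, hlogw]
            linarith
        _ = _ := mul_one _
    have h3 : (U.card : ℝ) * (F * ((D : ℝ) + 1)) ≤ (s : ℝ) ^ (16 * u - 5) := by
      have h4 : (D : ℝ) + 1 ≤ (s : ℝ) ^ (8 * u + 2) := by
        have h5 : (1 : ℝ) ≤ (s : ℝ) ^ (8 * u + 1) := one_le_pow₀ hs1'
        calc (D : ℝ) + 1 ≤ 2 * (s : ℝ) ^ (8 * u + 1) := by linarith
          _ ≤ s * (s : ℝ) ^ (8 * u + 1) := mul_le_mul_of_nonneg_right (by linarith) (by positivity)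
          _ = _ := by rw [← pow_succ']
      calc (U.card : ℝ) * (F * ((D : ℝ) + 1)) ≤ s * ((s : ℝ) ^ (2 * e + 4) * (s : ℝ) ^ (8 * u + 2)) := by
            gcongr
        _ = (s : ℝ) ^ (2 * e + 8 * u + 7) := by
            rw [← pow_add, ← pow_succ']
            congr 1
            ring
        _ ≤ _ := pow_le_pow_right₀ hs1' (by omega)
    have h4 : 0 ≤ 3 / 2 * AV * (C2 * (Real.log y / Real.log w)) + F * ((D : ℝ) + 1) := by positivity
    calc ((U.erase t₀).card : ℝ) * (3 / 2 * AV * (C2 * (Real.log y / Real.log w)) + F * ((D : ℝ) + 1)) ≤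
        (U.card : ℝ) * (3 / 2 * AV * (C2 * (Real.log y / Real.log w)) + F * ((D : ℝ) + 1)) :=
          mul_le_mul_of_nonneg_right h1 h4
      _ = (U.card : ℝ) * (3 / 2 * AV * (C2 * (Real.log y / Real.log w))) + (U.card : ℝ) * (F * ((D : ℝ) + 1)) := by ring
      _ ≤ _ := add_le_add h2 h3
  have hsplit : ∑ n ∈ G1, lam χ (Q * n + b) = ∑ n ∈ Gp, lam χ (Q * n + b) + ∑ n ∈ Gc, lam χ (Q * n + b) := by
    rw [hGp, hGc]
    exact (sum_filter_add_sum_filter_not _ _ _).symm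
  have hGgle : (Gg.card : ℝ) ≤ (((Icc 1 N).filter (fun n => N < n * n ∧ (Q * n + b).Prime ∧
      ∀ k ∈ U, k ≠ t₀ → ¬ (Q * n + b + k - t₀).Prime)).card : ℝ) := by
    refine Nat.cast_le.2 (card_le_card fun n hn => ?_)
    rw [hGg, mem_filter] at hn
    have h1 := hGpp n hn.1
    rw [mem_filter, mem_Icc]
    exact ⟨h1.2, hn.2.1, h1.1, hn.2.2⟩
  refine le_trans ?_ hGgle
  have h8 : AV * ∑ r ∈ (Ioc w D).filter (fun r => r.Prime ∧ χ r = 1), (1 / r : ℝ) ≤ AV * (1 / 8) :=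
    mul_le_mul_of_nonneg_left e2 hAV0
  linarith

end Pool.Agent.H92.I
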