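import Pool.Agent.H92.I.Rows
import Pool.Agent.H92.M.Cnt1

set_option autoImplicit false

/-! The number of primes in the class: the case `χ = -1`. -/

namespace Pool.Agent.H92.I

open Finset Filter
open Pool.Agent.H92.G Pool.Agent.H92.M
open Pool.Agent.H262R2.UM Pool.Agent.H262R2.UP

/-- few rows up to the square root -/
theorem small_rows (S : Finset ℕ) (N : ℕ) (hS : ∀ m ∈ S, 1 ≤ m) :
    (S.card : ℝ) ≤ ((S.filter (fun m => N < m * m)).card : ℝ) + Real.sqrt N := by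
  classical
  have h1 : S.card = (S.filter (fun m => N < m * m)).card + (S.filter (fun m => ¬ N < m * m)).card :=
    (card_filter_add_card_filter_not (s := S) (fun m => N < m * m)).symm
  have h2 : (S.filter (fun m => ¬ N < m * m)).card ≤ Nat.sqrt N := by
    have : S.filter (fun m => ¬ N < m * m) ⊆ Icc 1 (Nat.sqrt N) := by
      intro m hm
      rw [mem_filter, not_lt] at hm
      rw [mem_Icc]
      exact ⟨hS m hm.1, Nat.le_sqrt.2 hm.2⟩
    have h3 := card_le_card this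
    rwa [Nat.card_Icc, Nat.add_sub_cancel] at h3
  have h3 : ((Nat.sqrt N : ℕ) : ℝ) ≤ Real.sqrt N := Real.nat_sqrt_le_real_sqrt
  have h4 : ((S.filter (fun m => ¬ N < m * m)).card : ℝ) ≤ Nat.sqrt N := by exact_mod_cast h2
  rw [h1]
  push_cast
  linarith

theorem minus_iso : ∃ (u s0 : ℕ) (ϑ c : ℝ), 1 ≤ u ∧ 0 < ϑ ∧ 0 < c ∧ ∀ s : ℕ, s0 ≤ s → ∀ (f : ℕ) (χ : ℕ → ℝ), Chr f χ →
    ∀ Q b : ℕ, 0 < Q → Q ≤ s → 1 ≤ b → b ≤ 2 * s → b.Coprime Q → f ∣ Q → χ b = -1 →
    ∑ r ∈ (Ioc (s ^ 16) (s ^ (50 * u))).filter (fun r => r.Prime ∧ χ r = 1), 1 / (r : ℝ) ≤ ϑ →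
    ∀ y : ℕ, 4 ≤ y → y ≤ s → s0 ≤ y → (∀ p : ℕ, p.Prime → p ≤ y → p ∣ Q) →
    c * (((s ^ (50 * u) : ℕ) : ℝ) * (Real.log y / Real.log ((s ^ (50 * u) : ℕ) : ℝ))) ≤
      (((Icc 1 (s ^ (50 * u))).filter (fun m => s ^ (50 * u) < m * m ∧ (m * Q + b).Prime)).card : ℝ) := by
  classical
  obtain ⟨u, s0, z0, ϑ, c, hu, hϑ, hc, H⟩ := min_count
  obtain ⟨cV, hcV, _, HV⟩ := Pool.Agent.Y835.SC.V_ratio
  obtain ⟨N0, hN03, hroot⟩ := root_le (c * cV / 2) (by positivity)
  refine ⟨u, s0 + z0 + N0 + 3, ϑ, c * cV / 2, hu, hϑ, by positivity, ?_⟩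
  intro s hs f χ h Q b hQ hQs hb1 hb2 hcop hf hχ hsum y hy hys hzy hall
  obtain ⟨N, hN⟩ : ∃ N : ℕ, N = s ^ (50 * u) := ⟨_, rfl⟩
  have hsN : s ≤ N := by rw [hN]; exact Nat.le_self_pow (by omega) s
  have h1 := H s (by omega) f χ h Q b hQ hQs hb1 (by
    have h2 : s ≤ s ^ (50 * u) := Nat.le_self_pow (by omega) s
    have h3 : s ^ (50 * u) ≤ Q * s ^ (50 * u) := Nat.le_mul_of_pos_left _ hQ
    omega) hcop hf hχ hsum
  rw [← hN] at h1 ⊢
  have hpr : cV * (Real.log y / Real.log N) ≤ ∏ p ∈ (Pz N).filter (fun p => z0 < p ∧ ¬ p ∣ Q), (1 - 1 / (p : ℝ)) := by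
    apply HV y N (by omega) (by omega)
    intro p hp
    rw [mem_filter, mem_Pz] at hp
    refine ⟨hp.1.2, ?_, hp.1.1⟩
    by_contra hcon
    exact hp.2.2 (hall p hp.1.2 (not_lt.1 hcon))
  have hNr : (N : ℝ) = (s : ℝ) ^ (50 * u) := by rw [hN]; push_cast; rfl
  rw [← hNr] at h1
  have hN0 : (0 : ℝ) < N := by exact_mod_cast (by omega : 0 < N)
  have hly : 1 ≤ Real.log y := by
    rw [Real.le_log_iff_exp_le (by exact_mod_cast (by omega : 0 < y))]
    have h2 := Real.exp_one_lt_d9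
    have h3 : (4 : ℝ) ≤ y := by exact_mod_cast hy
    linarith
  have hlN : 0 < Real.log N := Real.log_pos (by exact_mod_cast (by omega : 1 < N))
  have h2 : c * cV * (N * (Real.log y / Real.log N)) ≤ (((Icc 1 N).filter (fun n => (Q * n + b).Prime)).card : ℝ) := by
    refine le_trans ?_ h1
    calc c * cV * (N * (Real.log y / Real.log N)) = c * N * (cV * (Real.log y / Real.log N)) := by ring
      _ ≤ _ := mul_le_mul_of_nonneg_left hpr (by positivity)
  have h3 := small_rows ((Icc 1 N).filter (fun n => (Q * n + b).Prime)) N (fun m hm => (mem_Icc.1 (mem_filter.1 hm).1).1)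
  have h4 : ((Icc 1 N).filter (fun n => (Q * n + b).Prime)).filter (fun m => N < m * m) =
      (Icc 1 N).filter (fun m => N < m * m ∧ (m * Q + b).Prime) := by
    rw [filter_filter]
    apply filter_congr
    intro m _
    rw [mul_comm Q m]
    exact and_comm
  rw [h4] at h3
  have h5 := hroot N (by omega)
  have h6 : c * cV / 2 * (N / Real.log N) ≤ c * cV / 2 * (N * (Real.log y / Real.log N)) := by
    apply mul_le_mul_of_nonneg_left _ (by positivity)
    rw [mul_div_assoc']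
    apply div_le_div_of_nonneg_right _ hlN.le
    calc (N : ℝ) = N * 1 := (mul_one _).symm
      _ ≤ N * Real.log y := mul_le_mul_of_nonneg_left hly hN0.le
  linarith

end Pool.Agent.H92.I
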