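import Pool.Agent.H92.I.Dat

set_option autoImplicit false

/-! The number of pairs of primes. -/

namespace Pool.Agent.H92.I

open Finset Filter
open Pool.Agent.R529.LG (pair_sieve RR)
open Pool.Agent.R529.FT (ex_w exp_big)

theorem pair_cnt : ∃ (C : ℝ) (N0 : ℕ), 0 < C ∧ ∀ N y P h h' : ℕ, N0 ≤ N → 4 ≤ y → (y : ℝ) ≤ Real.log N → 1 ≤ P →
    ∑ p ∈ P.primeFactors.filter (fun p => y < p), (1 : ℝ) / p ≤ 1 / 2 → h ≠ h' → h ≤ h' + y ^ 2 → h' ≤ h + y ^ 2 →
    (((Icc 1 N).filter (fun m => N < m * m ∧ (m * P + h).Prime ∧ (m * P + h').Prime)).card : ℝ) ≤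
      C * (N * (Real.log y / Real.log N) ^ 2) := by
  classical
  obtain ⟨E, C2, w0, hE, hC2, HS⟩ := pair_sieve
  obtain ⟨Y1, hY1, HW⟩ := ex_w (4 * E) (max w0 2) (by omega)
  have hE0 : (0 : ℝ) < E := by exact_mod_cast hE
  obtain ⟨z2, hz2⟩ := eventually_atTop.1 ((Real.tendsto_log_atTop.comp
    tendsto_natCast_atTop_atTop).eventually (exp_big (2 * (4 * E : ℕ)) (by positivity)))
  refine ⟨C2 * (8 * E) ^ 2, max (max Y1 z2) 3, by positivity, ?_⟩
  intro N y P h h' hN hy hyN hP0 hPs hne hh hh'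
  have hzz : Y1 ≤ N ∧ z2 ≤ N ∧ 3 ≤ N := by omega
  obtain ⟨hz1, hz2', hz3⟩ := hzz
  obtain ⟨w, hw0, hwE, hlw⟩ := HW N hz1
  have hw0' : w0 ≤ w := (le_max_left _ _).trans hw0
  have hw2 : 2 ≤ w := (le_max_right _ _).trans hw0
  have hlw0 : 0 < Real.log w := Real.log_pos (by exact_mod_cast (by omega : 1 < w))
  have hwr : (0 : ℝ) < w := by exact_mod_cast (by omega : 0 < w)
  have hly : 0 < Real.log y := Real.log_pos (by exact_mod_cast (by omega : 1 < y))
  have hlN : 0 < Real.log N := Real.log_pos (by exact_mod_cast (by omega : 1 < N))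
  have hyw : y ≤ w := by
    have h1 := hz2 N hz2'
    simp only [Function.comp] at h1
    have h2 : Real.exp (Real.log N / (2 * (4 * E : ℕ))) ≤ Real.exp (Real.log w) :=
      Real.exp_le_exp.2 hlw
    rw [Real.exp_log hwr] at h2
    exact_mod_cast (hyN.trans h1).trans h2
  have hwEN : w ^ E ≤ N := (Nat.pow_le_pow_right (by omega) (by omega)).trans hwE
  have h1 := HS y w N P h h' hw0' hy hyw hwEN hP0 hPs hne hh hh'
  have hw4 : w ^ 4 ≤ N := (Nat.pow_le_pow_right (by omega) (by omega)).trans hwE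
  have h2 : (((Icc 1 N).filter (fun m => N < m * m ∧ (m * P + h).Prime ∧ (m * P + h').Prime)).card : ℝ) ≤
      (((Icc 1 N).filter (fun m => ∀ p : ℕ, p.Prime → y < p → p ≤ w → ¬ p ∣ P →
      ¬ p ∣ m * P + h ∧ ¬ p ∣ m * P + h')).card : ℝ) := by
    refine Nat.cast_le.2 (card_le_card fun m hm => ?_)
    rw [mem_filter] at hm ⊢
    obtain ⟨hm1, hm2, hm3, hm4⟩ := hm
    have hwm : w < m := by
      by_contra hcon
      push Not at hcon
      have h3 : m * m ≤ w * w := Nat.mul_le_mul hcon hcon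
      have h4 : w * w ≤ w ^ 4 := by
        calc w * w = w ^ 2 := (sq w).symm
          _ ≤ w ^ 4 := Nat.pow_le_pow_right (by omega) (by norm_num)
      omega
    have hmP : m ≤ m * P := Nat.le_mul_of_pos_right m hP0
    refine ⟨hm1, fun p hp hyp hpw _ => ⟨fun hd => ?_, fun hd => ?_⟩⟩
    · have := (Nat.prime_dvd_prime_iff_eq hp hm3).1 hd
      omega
    · have := (Nat.prime_dvd_prime_iff_eq hp hm4).1 hd
      omega
  refine h2.trans (h1.trans ?_)
  have h6 : Real.log y / Real.log w ≤ 8 * E * (Real.log y / Real.log N) := by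
    rw [mul_div_assoc', div_le_div_iff₀ hlw0 hlN]
    rw [div_le_iff₀ (by positivity)] at hlw
    push_cast at hlw
    calc Real.log y * Real.log N ≤ Real.log y * (Real.log w * (2 * (4 * E))) :=
          mul_le_mul_of_nonneg_left hlw hly.le
      _ = _ := by ring
  calc C2 * (N * (Real.log y / Real.log w) ^ 2) ≤ C2 * (N * (8 * E * (Real.log y / Real.log N)) ^ 2) := by
        apply mul_le_mul_of_nonneg_left _ hC2.le
        apply mul_le_mul_of_nonneg_left _ (Nat.cast_nonneg N)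
        exact pow_le_pow_left₀ (by positivity) h6 2
    _ = _ := by ring

/-- the rows without a second prime -/
theorem good_rows (c : ℝ) (hc : 0 < c) : ∃ (c₁ : ℝ) (N0 : ℕ), 0 < c₁ ∧ ∀ N y P r t₀ : ℕ, ∀ U : Finset ℕ, N0 ≤ N → 4 ≤ y →
    (y : ℝ) ≤ Real.log N → 1 ≤ P → ∑ p ∈ P.primeFactors.filter (fun p => y < p), (1 : ℝ) / p ≤ 1 / 2 →
    t₀ ≤ y ^ 2 → (∀ k ∈ U, k ≤ y ^ 2) → (U.card : ℝ) ≤ c₁ * (y / Real.log y) →
    c * (N * (Real.log y / Real.log N)) ≤ (((Icc 1 N).filter (fun m => N < m * m ∧ (m * P + (r + t₀)).Prime)).card : ℝ) →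
    c / 2 * (N * (Real.log y / Real.log N)) ≤ (((Icc 1 N).filter (fun m => N < m * m ∧ (m * P + (r + t₀)).Prime ∧
      ∀ k ∈ U, k ≠ t₀ → ¬ (m * P + (r + k)).Prime)).card : ℝ) := by
  classical
  obtain ⟨C, N0, hC, H⟩ := pair_cnt
  refine ⟨c / (2 * C), N0 + 3, by positivity, ?_⟩
  intro N y P r t₀ U hN hy hyN hP hPs ht hUy hU hcnt
  have hly : 0 < Real.log y := Real.log_pos (by exact_mod_cast (by omega : 1 < y))
  have hlN : 0 < Real.log N := Real.log_pos (by exact_mod_cast (by omega : 1 < N))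
  have hy0 : (0 : ℝ) < y := by exact_mod_cast (by omega : 0 < y)
  have hN0 : (0 : ℝ) < N := by exact_mod_cast (by omega : 0 < N)
  obtain ⟨S, hS⟩ : ∃ S : Finset ℕ, S = (Icc 1 N).filter (fun m => N < m * m ∧ (m * P + (r + t₀)).Prime) := ⟨_, rfl⟩
  obtain ⟨Gd, hGd⟩ : ∃ Gd : Finset ℕ, Gd = (Icc 1 N).filter (fun m => N < m * m ∧ (m * P + (r + t₀)).Prime ∧
      ∀ k ∈ U, k ≠ t₀ → ¬ (m * P + (r + k)).Prime) := ⟨_, rfl⟩
  rw [← hS] at hcnt
  rw [← hGd]
  have hcov : S ⊆ Gd ∪ (U.erase t₀).biUnion (fun k => (Icc 1 N).filter (fun m => N < m * m ∧ (m * P + (r + t₀)).Prime ∧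
      (m * P + (r + k)).Prime)) := by
    intro m hm
    rw [hS, mem_filter] at hm
    rw [mem_union, mem_biUnion]
    by_cases h : ∀ k ∈ U, k ≠ t₀ → ¬ (m * P + (r + k)).Prime
    · left
      rw [hGd, mem_filter]
      exact ⟨hm.1, hm.2.1, hm.2.2, h⟩
    · right
      push Not at h
      obtain ⟨k, hk, hkt, hkp⟩ := h
      exact ⟨k, mem_erase.2 ⟨hkt, hk⟩, mem_filter.2 ⟨hm.1, hm.2.1, hm.2.2, hkp⟩⟩
  have h1 : (S.card : ℝ) ≤ Gd.card + ∑ k ∈ U.erase t₀, (((Icc 1 N).filter (fun m => N < m * m ∧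
      (m * P + (r + t₀)).Prime ∧ (m * P + (r + k)).Prime)).card : ℝ) := by
    have h2 := (card_le_card hcov).trans ((card_union_le _ _).trans (Nat.add_le_add_left card_biUnion_le _))
    exact_mod_cast h2
  have h2 : ∀ k ∈ U.erase t₀, (((Icc 1 N).filter (fun m => N < m * m ∧
      (m * P + (r + t₀)).Prime ∧ (m * P + (r + k)).Prime)).card : ℝ) ≤ C * (N * (Real.log y / Real.log N) ^ 2) := by
    intro k hk
    rw [mem_erase] at hk
    have hky := hUy k hk.2
    exact H N y P (r + t₀) (r + k) (by omega) hy hyN hP hPs (by omega) (by omega) (by omega)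
  have h3 : ∑ k ∈ U.erase t₀, (((Icc 1 N).filter (fun m => N < m * m ∧
      (m * P + (r + t₀)).Prime ∧ (m * P + (r + k)).Prime)).card : ℝ) ≤ c / 2 * (N * (Real.log y / Real.log N)) := by
    refine (sum_le_card_nsmul _ _ _ h2).trans ?_
    rw [nsmul_eq_mul]
    have h4 : ((U.erase t₀).card : ℝ) ≤ c / (2 * C) * (y / Real.log y) :=
      le_trans (by exact_mod_cast card_le_card (erase_subset _ _)) hU
    calc ((U.erase t₀).card : ℝ) * (C * (N * (Real.log y / Real.log N) ^ 2)) ≤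
        c / (2 * C) * (y / Real.log y) * (C * (N * (Real.log y / Real.log N) ^ 2)) :=
          mul_le_mul_of_nonneg_right h4 (by positivity)
      _ = c / 2 * (N * (Real.log y / Real.log N)) * (y / Real.log N) := by
          field_simp
      _ ≤ c / 2 * (N * (Real.log y / Real.log N)) * 1 := by
          apply mul_le_mul_of_nonneg_left _ (by positivity)
          rw [div_le_one hlN]
          exact hyN
      _ = _ := mul_one _
  linarith

end Pool.Agent.H92.I
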