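import Pool.Agent.H92.G.PlusFin
import Pool.Agent.H92.I.MinI

set_option autoImplicit false

/-! The composite values are rare (a variant of `Pool.Agent.H92.G.rem_plus` for subsets), and the sets of roots of
pairs. -/

open Finset Filter Topology

namespace Pool.Agent.H92.I

open Pool.Agent.H92.G

variable {f : ℕ} {χ : ℕ → ℝ}

/-- the composite values -/
theorem rem_plus' (h : Chr f χ) {a b : ℕ} (ha : 0 < a) (hfa : f ∣ a) (hab : a.Coprime b) (hb1 : 1 ≤ b) (hba : b ≤ a)
    {y : ℕ} (hy : 1 < y) (hay : a ≤ y) {ZW P : Finset ℕ} (hZW : ∀ p ∈ ZW, p.Prime ∧ p ≤ y) {W : ℕ}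
    (hW : W = ∏ p ∈ ZW, p) (hall : ∀ p : ℕ, p.Prime → p ≤ y → p ∈ ZW ∨ p ∈ P)
    (Rt : ℕ → Finset ℕ) (hRt : ∀ p ∈ P, ∀ n, p ∣ a * n + b → n % p ∈ Rt p) (ν N v : ℕ) (hν : ∀ p ∈ ZW, ¬ p ∣ a * ν + b)
    (hv : a * N + b < y ^ (v + 1)) (G : Finset ℕ) (hG : G ⊆ GS W ν N P Rt) (hno : ∀ n ∈ G, ¬ (a * n + b).Prime) (s b' ν' : ℕ → ℕ)
    (hdat : ∀ r, r.Prime → y < r → s r < r ∧ r * b' r = a * s r + b ∧ s r + r * ν' r ≡ ν [MOD W]) :
    ∑ n ∈ G, lam χ (a * n + b) ≤
      ∑ r ∈ (Ioc y (Nat.sqrt (a * N + b))).filter (fun r => r.Prime ∧ χ r = 1),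
        2 * ∑ t ∈ GS W (ν' r) (N / r) P (RtR Rt r (s r)), lam χ (a * t + b' r) +
      2 ^ v * ((N : ℝ) / y + 2 * Nat.sqrt (a * N + b)) := by
  classical
  obtain ⟨D, hD⟩ : ∃ D : ℕ, D = Nat.sqrt (a * N + b) := ⟨_, rfl⟩
  rw [← hD]
  have hrough : ∀ n ∈ G, ∀ p : ℕ, p.Prime → p ∣ a * n + b → y < p := by
    intro n hn p hp hpd
    by_contra hcon
    push Not at hcon
    replace hn := mem_GS.1 (hG hn)
    rcases hall p hp hcon with h1 | h1
    · apply hν p h1
      have h2 : p ∣ W := by rw [hW]; exact dvd_prod_of_mem _ h1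
      have h3 : a * n + b ≡ a * ν + b [MOD p] := ((hn.2.1.of_dvd h2).mul_left a).add_right b
      exact (h3.dvd_iff dvd_rfl).1 hpd
    · exact hn.2.2 p h1 (hRt p h1 n hpd)
  have hGm : ∀ n ∈ G, 1 ≤ n ∧ n ≤ N := fun n hn => by
    exact (mem_GS.1 (hG hn)).1
  -- one value
  have hone : ∀ n ∈ G, lam χ (a * n + b) ≤
      ∑ r ∈ (Ioc y D).filter (fun r => r.Prime ∧ χ r = 1), (if r ∣ a * n + b ∧ 1 ≤ n / r then
        2 * lam χ ((a * n + b) / r) else 0) +
      ∑ r ∈ (Ioc y D).filter (fun r => r.Prime), (if r * r ∣ a * n + b then (2 : ℝ) ^ v else 0) := by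
    intro n hn
    obtain ⟨hn1, hnN⟩ := hGm n hn
    obtain ⟨m, hm⟩ : ∃ m : ℕ, m = a * n + b := ⟨_, rfl⟩
    rw [← hm]
    have hnp : ¬ m.Prime := by
      rw [hm]
      exact hno n hn
    have hma : a ≤ a * n := Nat.le_mul_of_pos_right a hn1
    have hm2 : 2 ≤ m := by omega
    have hmN : m ≤ a * N + b := by
      have := Nat.mul_le_mul_left a hnN
      omega
    obtain ⟨r, hr⟩ : ∃ r : ℕ, r = m.minFac := ⟨_, rfl⟩
    have hrp : r.Prime := by rw [hr]; exact Nat.minFac_prime (by omega)
    have hrd : r ∣ m := by rw [hr]; exact Nat.minFac_dvd m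
    have hyr : y < r := hrough n hn r hrp (by rw [← hm]; exact hrd)
    have hr2 : r ^ 2 ≤ m := by rw [hr]; exact Nat.minFac_sq_le_self (by omega) hnp
    have hrD : r ≤ D := by
      rw [hD]
      apply Nat.le_sqrt.2
      rw [← sq]
      exact hr2.trans hmN
    have hnn1 : ∀ r ∈ (Ioc y D).filter (fun r => r.Prime ∧ χ r = 1), (0 : ℝ) ≤ (if r ∣ m ∧ 1 ≤ n / r then
        2 * lam χ (m / r) else 0) := by
      intro r _
      split_ifs
      · exact mul_nonneg (by norm_num) (lam_nonneg h _)
      · exact le_rfl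
    have hnn2 : ∀ r ∈ (Ioc y D).filter (fun r => r.Prime), (0 : ℝ) ≤ (if r * r ∣ m then (2 : ℝ) ^ v else 0) := by
      intro r _
      split_ifs <;> positivity
    have hrf : r.Coprime f := by
      rw [Nat.Prime.coprime_iff_not_dvd hrp]
      intro h1
      have := Nat.le_of_dvd ha (h1.trans hfa)
      omega
    rcases h.val r hrf with hχ | hχ
    · have h1 : lam χ m ≤ 2 * lam χ (m / r) := by
        obtain ⟨q, hq⟩ := hrd
        have hq0 : q ≠ 0 := by rintro rfl; omega
        rw [hq, Nat.mul_div_cancel_left _ hrp.pos]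
        exact lam_two h hrp hχ hq0
      have h2 : 1 ≤ n / r := by
        rw [Nat.one_le_div_iff hrp.pos]
        by_contra hcon
        push Not at hcon
        have h3 : m < a * r + b := by
          rw [hm]
          have := Nat.mul_lt_mul_of_pos_left hcon ha
          omega
        have h4 : a * r + b ≤ (a + 1) * r := by
          have : b ≤ r := by omega
          nlinarith
        have h5 : (a + 1) * r ≤ r * r := Nat.mul_le_mul_right r (by omega)
        rw [sq] at hr2
        omega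
      have h3 : 2 * lam χ (m / r) ≤ ∑ r ∈ (Ioc y D).filter (fun r => r.Prime ∧ χ r = 1), (if r ∣ m ∧ 1 ≤ n / r then
        2 * lam χ (m / r) else 0) := by
        have h4 := single_le_sum hnn1 (mem_filter.2 ⟨mem_Ioc.2 ⟨hyr, hrD⟩, hrp, hχ⟩)
        rwa [if_pos ⟨hrd, h2⟩] at h4
      have h4 := sum_nonneg hnn2
      linarith
    · have h4 := sum_nonneg hnn1
      by_cases hsq : r * r ∣ m
      · have h1 : lam χ m ≤ 2 ^ v := by
          refine (lam_le_card h m).trans ?_
          have h2 := tau_le (m := m) (by omega)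
          have h3 := few (m := m) (y := y) (v := v) (by omega) hy (fun p hp hpd => hrough n hn p hp (by rw [← hm]; exact hpd))
            (lt_of_le_of_lt hmN hv)
          have h5 : m.divisors.card ≤ 2 ^ v := h2.trans (Nat.pow_le_pow_right (by norm_num) h3)
          exact_mod_cast h5
        have h3 : (2 : ℝ) ^ v ≤ ∑ r ∈ (Ioc y D).filter (fun r => r.Prime), (if r * r ∣ m then (2 : ℝ) ^ v else 0) := by
          have h5 := single_le_sum hnn2 (mem_filter.2 ⟨mem_Ioc.2 ⟨hyr, hrD⟩, hrp⟩)
          rwa [if_pos hsq] at h5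
        linarith
      · have h1 : lam χ m = 0 := lam_zero h hrp hrd (by rw [sq]; exact hsq) hχ
        rw [h1]
        have h5 := sum_nonneg hnn2
        linarith
  refine (sum_le_sum hone).trans ?_
  rw [sum_add_distrib, sum_comm, sum_comm (s := G) (t := (Ioc y D).filter (fun r => r.Prime))]
  apply add_le_add
  · apply sum_le_sum
    intro r hr
    rw [mem_filter, mem_Ioc] at hr
    obtain ⟨⟨hyr, hrD⟩, hrp, hχ⟩ := hr
    obtain ⟨d1, d2, d3⟩ := hdat r hrp hyr
    rw [← sum_filter, mul_sum]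
    have hra : a.Coprime r := by
      rw [Nat.coprime_comm, Nat.Prime.coprime_iff_not_dvd hrp]
      intro h1
      have := Nat.le_of_dvd ha h1
      omega
    have hnr : ∀ n ∈ G.filter (fun n => r ∣ a * n + b ∧ 1 ≤ n / r), n = s r + r * (n / r) := by
      intro n hn
      rw [mem_filter] at hn
      have h1 : a * n + b ≡ a * s r + b [MOD r] :=
        (Nat.modEq_zero_iff_dvd.2 hn.2.1).trans (Nat.modEq_zero_iff_dvd.2 (d2 ▸ dvd_mul_right r (b' r))).symm
      have h2 : a * n ≡ a * s r [MOD r] := Nat.ModEq.add_right_cancel' b h1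
      have h3 : n ≡ s r [MOD r] := Nat.ModEq.cancel_left_of_coprime (by rw [Nat.gcd_comm]; exact hra) h2
      have h4 : n % r = s r := by
        unfold Nat.ModEq at h3
        rw [h3, Nat.mod_eq_of_lt d1]
      have h5 := Nat.mod_add_div n r
      omega
    have hval : ∀ n ∈ G.filter (fun n => r ∣ a * n + b ∧ 1 ≤ n / r),
        2 * lam χ ((a * n + b) / r) = 2 * lam χ (a * (n / r) + b' r) := by
      intro n hn
      have h1 := hnr n hn
      have h2 : a * n + b = r * (a * (n / r) + b' r) := by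
        calc a * n + b = a * (s r + r * (n / r)) + b := by rw [← h1]
          _ = r * (a * (n / r)) + (a * s r + b) := by ring
          _ = _ := by rw [← d2]; ring
      rw [h2, Nat.mul_div_cancel_left _ hrp.pos]
    rw [sum_congr rfl hval]
    have hinj : Set.InjOn (fun n => n / r) (G.filter (fun n => r ∣ a * n + b ∧ 1 ≤ n / r) : Finset ℕ) := by
      intro n hn n' hn' hnn
      rw [mem_coe] at hn hn'
      simp only at hnn
      rw [hnr n hn, hnr n' hn', hnn]
    rw [← sum_image (f := fun t => 2 * lam χ (a * t + b' r)) hinj]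
    apply sum_le_sum_of_subset_of_nonneg
    · intro t ht
      rw [mem_image] at ht
      obtain ⟨n, hn, rfl⟩ := ht
      have h1 := hnr n hn
      rw [mem_filter] at hn
      obtain ⟨hn0, hn1, hn2⟩ := hn
      replace hn0 := mem_GS.1 (hG hn0)
      rw [mem_GS]
      refine ⟨⟨hn2, Nat.div_le_div_right hn0.1.2⟩, ?_, ?_⟩
      · have h2 : s r + r * (n / r) ≡ s r + r * ν' r [MOD W] := by
          rw [← h1]
          exact hn0.2.1.trans d3.symm
        have h3 := Nat.ModEq.add_left_cancel' _ h2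
        have hrW : r.Coprime W := by
          rw [hW]
          apply Nat.Coprime.prod_right
          intro p hp
          rw [Nat.coprime_primes hrp (hZW p hp).1]
          have := (hZW p hp).2
          omega
        exact Nat.ModEq.cancel_left_of_coprime (by rw [Nat.gcd_comm]; exact hrW) h3
      · intro p hp hmem
        unfold RtR at hmem
        apply hn0.2.2 p hp
        have h2 := (mem_filter.1 hmem).2
        have h3 : s r + r * (n / r % p) ≡ n [MOD p] := by
          conv_rhs => rw [h1]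
          exact ((Nat.mod_modEq _ p).mul_left r).add_left _
        unfold Nat.ModEq at h3
        rw [h3] at h2
        exact h2
    · intro t _ _
      exact mul_nonneg (by norm_num) (lam_nonneg h _)
  · have h1 : ∀ r ∈ (Ioc y D).filter (fun r => r.Prime), ∑ n ∈ G, (if r * r ∣ a * n + b then (2 : ℝ) ^ v else 0) ≤
        2 ^ v * (N * (1 / ((r : ℝ) * r)) + 2) := by
      intro r hr
      rw [mem_filter, mem_Ioc] at hr
      rw [← sum_filter, sum_const, nsmul_eq_mul, mul_comm]
      apply mul_le_mul_of_nonneg_left _ (by positivity)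
      refine le_trans ?_ (cnt_sq ha hay hab N hr.2 hr.1.1)
      have h2 : (G.filter (fun n => r * r ∣ a * n + b)).card ≤ ((Icc 1 N).filter (fun n => r * r ∣ a * n + b)).card := by
        apply card_le_card
        intro n hn
        rw [mem_filter] at hn
        rw [mem_filter, mem_Icc]
        exact ⟨hGm n hn.1, hn.2⟩
      exact_mod_cast h2
    refine (sum_le_sum h1).trans ?_
    calc ∑ r ∈ (Ioc y D).filter (fun r => r.Prime), 2 ^ v * (N * (1 / ((r : ℝ) * r)) + 2) ≤
        ∑ r ∈ Ioc y D, 2 ^ v * (N * (1 / ((r : ℝ) * r)) + 2) := by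
          apply sum_le_sum_of_subset_of_nonneg (filter_subset _ _)
          intro r _ _
          positivity
      _ = 2 ^ v * (N * ∑ r ∈ Ioc y D, 1 / ((r : ℝ) * r) + 2 * ((D - y : ℕ) : ℝ)) := by
          rw [← mul_sum, sum_add_distrib, ← mul_sum, sum_const, Nat.card_Ioc, nsmul_eq_mul]
          ring
      _ ≤ 2 ^ v * ((N : ℝ) / y + 2 * D) := by
          apply mul_le_mul_of_nonneg_left _ (by positivity)
          have h2 := mul_le_mul_of_nonneg_left (sum_inv_sq (D := D) (y := y) (by omega)) (Nat.cast_nonneg (α := ℝ) N)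
          have h3 : ((D - y : ℕ) : ℝ) ≤ D := by exact_mod_cast Nat.sub_le D y
          rw [mul_one_div] at h2
          linarith


end Pool.Agent.H92.I
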