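import Pool.Agent.H92.I.Pr

set_option autoImplicit false

/-! From rows to isolated primes. -/

namespace Pool.Agent.H92.I

open Finset Filter
open Pool.Agent.R529.LG (pair_sieve RR)

theorem root_le (c : ℝ) (hc : 0 < c) : ∃ N0 : ℕ, 3 ≤ N0 ∧ ∀ N : ℕ, N0 ≤ N → Real.sqrt N ≤ c * (N / Real.log N) := by
  have h1 := (isLittleO_log_rpow_atTop (r := (1 / 2 : ℝ)) (by norm_num)).def hc
  obtain ⟨N0, hN0⟩ := eventually_atTop.1 ((tendsto_natCast_atTop_atTop (R := ℝ)).eventually h1)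
  refine ⟨N0 + 3, by omega, fun N hN => ?_⟩
  have h2 := hN0 N (by omega)
  have hN3 : (3 : ℝ) ≤ N := by exact_mod_cast (by omega : 3 ≤ N)
  have hl : 0 < Real.log N := Real.log_pos (by linarith)
  rw [Real.norm_of_nonneg hl.le, Real.norm_of_nonneg (by positivity), ← Real.sqrt_eq_rpow] at h2
  rw [mul_div_assoc', le_div_iff₀ hl]
  have h3 : (N : ℝ) = Real.sqrt N * Real.sqrt N := (Real.mul_self_sqrt (by linarith)).symm
  calc Real.sqrt N * Real.log N ≤ Real.sqrt N * (c * Real.sqrt N) := mul_le_mul_of_nonneg_left h2 (Real.sqrt_nonneg _)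
    _ = c * (Real.sqrt N * Real.sqrt N) := by ring
    _ = c * N := by rw [← h3]

open Classical in
/-- the isolated primes -/
noncomputable def Iso (z K q a : ℕ) (G : ℝ) : Finset ℕ :=
  (Ioc z (z ^ K)).filter (fun p => p.Prime ∧ p ≡ a [MOD q] ∧ Alone G p)

open Classical in
theorem rows_fin {z N Q r t₀ y q a K K' : ℕ} {G : ℝ} {S : Finset ℕ} (hz : 4 ≤ z) (hNK : N ≤ z ^ K) (hK : 1 ≤ K) (hKK : K + 2 ≤ K')
    (hQ : 1 ≤ Q) (hQz : Q ≤ z) (hr : r < Q) (ht : t₀ ≤ z) (hy : y + 1 ≤ z) (hq : q ∣ Q) (hra : r + t₀ ≡ a [MOD q])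
    (hS : ∀ m ∈ S, z < m ∧ m ≤ N ∧ (m * Q + (r + t₀)).Prime ∧ (y + 1 < m * Q → Alone G (m * Q + (r + t₀)))) :
    S.card ≤ (Iso z K' q a G).card := by
  have himg : S.image (fun m => m * Q + (r + t₀)) ⊆ Iso z K' q a G := by
    intro p hp
    obtain ⟨m, hm, rfl⟩ := mem_image.1 hp
    obtain ⟨h1, h2, h3, h4⟩ := hS m hm
    unfold Iso
    rw [mem_filter, mem_Ioc]
    have hmQ : m ≤ m * Q := Nat.le_mul_of_pos_right m hQ
    refine ⟨⟨by omega, ?_⟩, h3, ?_, h4 (by omega)⟩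
    · have h5 : m * Q ≤ z ^ K * z := Nat.mul_le_mul (h2.trans hNK) hQz
      have h6 : z ^ K * z = z ^ (K + 1) := by ring
      have h7 : z ^ (K + 2) = z * z ^ (K + 1) := by ring
      have h8 : z ≤ z ^ (K + 1) := Nat.le_self_pow (by omega) z
      have h9 : 4 * z ^ (K + 1) ≤ z * z ^ (K + 1) := Nat.mul_le_mul_right _ hz
      have h10 : z ^ (K + 2) ≤ z ^ K' := Nat.pow_le_pow_right (by omega) hKK
      omega
    · have h5 : m * Q + (r + t₀) ≡ 0 + (r + t₀) [MOD q] :=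
        Nat.ModEq.add_right _ (Nat.modEq_zero_iff_dvd.2 (hq.mul_left m))
      rw [zero_add] at h5
      exact h5.trans hra
  have hinj : Function.Injective (fun m => m * Q + (r + t₀)) := by
    intro m m' h
    simp only at h
    exact Nat.eq_of_mul_eq_mul_right hQ (by omega)
  have h1 := card_le_card himg
  rwa [card_image_of_injective _ hinj] at h1

end Pool.Agent.H92.I
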