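import Pool.Agent.H92.I.RemS

set_option autoImplicit false

/-! The roots of a pair of values and the ratio of the sieve products. -/

open Finset Filter Topology

namespace Pool.Agent.H92.I

open Pool.Agent.H92.G
open Pool.Agent.Y835.SC (V_anti)

variable {f : ℕ} {χ : ℕ → ℝ}

/-- the roots of a pair -/
def Rt2 (Q b t₀ k p : ℕ) : Finset ℕ :=
  (range p).filter (fun c => ¬ p ∣ Q ∧ (p ∣ Q * c + b ∨ Q * c + b + k ≡ t₀ [MOD p]))

theorem Ri_empty {Q b p : ℕ} (hp : p.Prime) (hb : b.Coprime Q) (h : p ∣ Q) : Ri Q b p = ∅ := by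
  unfold Ri
  rw [filter_eq_empty_iff]
  intro c _ hd
  have h2 : p ∣ b := (Nat.dvd_add_right (h.mul_right c)).1 hd
  have h3 := Nat.dvd_gcd h2 h
  rw [hb] at h3
  exact hp.one_lt.ne' (Nat.dvd_one.1 h3)

/-- the second root -/
theorem root2 {Q b t₀ k p : ℕ} (hp : p.Prime) (hQ : ¬ p ∣ Q) : ∃ c0 < p, ∀ c < p, (Q * c + b + k ≡ t₀ [MOD p] ↔ c = c0) := by
  have hc : Q.Coprime p := (Nat.coprime_comm).1 ((Nat.Prime.coprime_iff_not_dvd hp).2 hQ)
  obtain ⟨n, hn⟩ := exists_root (a := Q) (b := b + k + (p - t₀ % p)) hp.pos hc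
  have ht : t₀ % p < p := Nat.mod_lt _ hp.pos
  have key : ∀ c, (Q * c + b + k ≡ t₀ [MOD p] ↔ p ∣ Q * c + (b + k + (p - t₀ % p))) := by
    intro c
    have e : Q * c + (b + k + (p - t₀ % p)) = Q * c + b + k + (p - t₀ % p) := by ring
    rw [e]
    have h0 : t₀ + (p - t₀ % p) ≡ 0 [MOD p] := by
      have h1 : t₀ + (p - t₀ % p) ≡ t₀ % p + (p - t₀ % p) [MOD p] := (Nat.mod_modEq t₀ p).symm.add_right _
      rw [Nat.add_sub_cancel' ht.le] at h1
      exact h1.trans (Nat.modEq_zero_iff_dvd.2 dvd_rfl)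
    constructor
    · intro h
      exact Nat.modEq_zero_iff_dvd.1 ((h.add_right (p - t₀ % p)).trans h0)
    · intro h
      exact Nat.ModEq.add_right_cancel' (p - t₀ % p) ((Nat.modEq_zero_iff_dvd.2 h).trans h0.symm)
  refine ⟨n % p, Nat.mod_lt _ hp.pos, fun c hc' => ?_⟩
  have hn' : p ∣ Q * (n % p) + (b + k + (p - t₀ % p)) := by
    have h1 : Q * (n % p) + (b + k + (p - t₀ % p)) ≡ Q * n + (b + k + (p - t₀ % p)) [MOD p] :=
      ((Nat.mod_modEq n p).mul_left Q).add_right _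
    exact (h1.dvd_iff dvd_rfl).2 hn
  constructor
  · intro h
    have h1 := (key c).1 h
    have h2 : Q * c + (b + k + (p - t₀ % p)) ≡ Q * (n % p) + (b + k + (p - t₀ % p)) [MOD p] :=
      (Nat.modEq_zero_iff_dvd.2 h1).trans (Nat.modEq_zero_iff_dvd.2 hn').symm
    have h3 : Q * c ≡ Q * (n % p) [MOD p] := Nat.ModEq.add_right_cancel' _ h2
    have h4 : c ≡ n % p [MOD p] := Nat.ModEq.cancel_left_of_coprime (by rw [Nat.gcd_comm]; exact hc) h3
    exact Nat.ModEq.eq_of_lt_of_lt h4 hc' (Nat.mod_lt _ hp.pos)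
  · intro h
    rw [h]
    exact (key _).2 hn'

theorem Rt2_card {Q b t₀ k p : ℕ} (hp : p.Prime) :
    (Rt2 Q b t₀ k p).card ≤ 2 ∧ ∀ c ∈ Rt2 Q b t₀ k p, c < p := by
  refine ⟨?_, fun c hc => mem_range.1 (mem_filter.1 hc).1⟩
  by_cases hQ : p ∣ Q
  · have : Rt2 Q b t₀ k p = ∅ := by
      unfold Rt2
      rw [filter_eq_empty_iff]
      intro c _ h
      exact h.1 hQ
    rw [this, card_empty]
    omega
  · obtain ⟨c0, hc0, h⟩ := root2 (b := b) (t₀ := t₀) (k := k) hp hQ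
    have hsub : Rt2 Q b t₀ k p ⊆ Ri Q b p ∪ {c0} := by
      intro c hc
      unfold Rt2 at hc
      rw [mem_filter, mem_range] at hc
      rw [mem_union, mem_singleton]
      rcases hc.2.2 with h1 | h1
      · left
        unfold Ri
        rw [mem_filter, mem_range]
        exact ⟨hc.1, h1⟩
      · right
        exact (h c hc.1).1 h1
    have h1 := (card_le_card hsub).trans (card_union_le _ _)
    rw [Ri_card hp ((Nat.coprime_comm).1 ((Nat.Prime.coprime_iff_not_dvd hp).2 hQ)), card_singleton] at h1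
    exact h1

/-- the local factor -/
theorem loc_ratio (h : Chr f χ) {Q b t₀ k p : ℕ} (hp : p.Prime) (hb : b.Coprime Q) :
    1 - gg χ Q b (Rt2 Q b t₀ k) p ≤ (1 - gg χ Q b (Ri Q b) p) *
      (if ¬ p ∣ Q ∧ ¬ k ≡ t₀ [MOD p] then 1 - 1 / (p : ℝ) + 1 / (p : ℝ) ^ 2 else 1) := by
  by_cases hQ : p ∣ Q
  · rw [if_neg (fun h => h.1 hQ), mul_one]
    have h1 : Rt2 Q b t₀ k p = ∅ := by
      unfold Rt2
      rw [filter_eq_empty_iff]
      intro c _ h
      exact h.1 hQ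
    unfold gg
    rw [h1, Ri_empty hp hb hQ]
  · obtain ⟨c0, hc0, hr⟩ := root2 (b := b) (t₀ := t₀) (k := k) hp hQ
    by_cases hk : k ≡ t₀ [MOD p]
    · rw [if_neg (fun h => h.2 hk), mul_one]
      have h1 : Rt2 Q b t₀ k p = Ri Q b p := by
        unfold Rt2 Ri
        apply filter_congr
        intro c _
        constructor
        · rintro ⟨_, h1 | h1⟩
          · exact h1
          · have h2 : Q * c + b + k ≡ 0 + t₀ [MOD p] := by rw [zero_add]; exact h1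
            have h3 : Q * c + b + k ≡ Q * c + b + t₀ [MOD p] := hk.add_left _
            exact Nat.modEq_zero_iff_dvd.1 (Nat.ModEq.add_right_cancel' t₀ (h3.symm.trans h2))
        · intro h1
          exact ⟨hQ, Or.inl h1⟩
      unfold gg
      rw [h1]
    · rw [if_pos ⟨hQ, hk⟩]
      have hnd : ¬ p ∣ Q * c0 + b := by
        intro hd
        apply hk
        have h1 := (hr c0 hc0).2 rfl
        have h2 : Q * c0 + b + k ≡ 0 + k [MOD p] := (Nat.modEq_zero_iff_dvd.2 hd).add_right k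
        rw [zero_add] at h2
        exact h2.symm.trans h1
      have h1 : Rt2 Q b t₀ k p = insert c0 (Ri Q b p) := by
        ext c
        unfold Rt2 Ri
        rw [mem_filter, mem_insert, mem_filter, mem_range]
        constructor
        · rintro ⟨h1, _, h2 | h2⟩
          · exact Or.inr ⟨h1, h2⟩
          · exact Or.inl ((hr c h1).1 h2)
        · rintro (h1 | h1)
          · rw [h1]
            exact ⟨hc0, hQ, Or.inr ((hr c0 hc0).2 rfl)⟩
          · exact ⟨h1.1, hQ, Or.inl h1.2⟩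
      have h2 : c0 ∉ Ri Q b p := by
        unfold Ri
        rw [mem_filter]
        exact fun h => hnd h.2
      have hp1 : (2 : ℝ) ≤ p := by exact_mod_cast hp.two_le
      have hp0 : (0 : ℝ) < p := by linarith
      have h3 : gg χ Q b (Rt2 Q b t₀ k) p = ep χ Q b p c0 / p + gg χ Q b (Ri Q b) p := by
        unfold gg
        rw [h1, sum_insert h2]
      have h4 : 1 - 1 / (p : ℝ) ≤ ep χ Q b p c0 := by
        unfold ep cc
        rw [if_neg hQ, if_neg hnd, zero_sub]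
        have h5 := (abs_le.1 (h.abs_le p)).2
        have h6 : χ p / p ≤ 1 / p := div_le_div_of_nonneg_right h5 hp0.le
        have e : -1 * χ p / (p : ℝ) = -(χ p / p) := by ring
        rw [e]
        linarith
      have h5 : 0 ≤ gg χ Q b (Ri Q b) p := by
        unfold gg
        exact sum_nonneg fun c _ => div_nonneg (ep_bd h Q b hp c).1 hp0.le
      rw [h3]
      have h6 : (1 - 1 / (p : ℝ)) / p ≤ ep χ Q b p c0 / p := div_le_div_of_nonneg_right h4 hp0.le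
      have h7 : (1 - 1 / (p : ℝ)) / p = 1 / (p : ℝ) - 1 / (p : ℝ) ^ 2 := by field_simp
      have h8 : 0 ≤ (1 - 1 / (p : ℝ)) / p := by
        apply div_nonneg _ hp0.le
        rw [sub_nonneg, div_le_one hp0]
        linarith
      obtain ⟨g, hg⟩ : ∃ g, g = gg χ Q b (Ri Q b) p := ⟨_, rfl⟩
      obtain ⟨x, hx⟩ : ∃ x, x = (1 - 1 / (p : ℝ)) / p := ⟨_, rfl⟩
      rw [← hg] at h5 ⊢
      rw [← hx] at h6 h7 h8
      have e : (1 - g) * (1 - 1 / (p : ℝ) + 1 / (p : ℝ) ^ 2) = (1 - g) * (1 - x) := by rw [h7]; ring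
      rw [e]
      nlinarith [mul_nonneg h5 h8]

/-- the ratio of the products -/
theorem V_ratio2 : ∃ C2 : ℝ, 0 < C2 ∧ ∀ (f : ℕ) (χ : ℕ → ℝ), Chr f χ → ∀ Q b t₀ k y z0 w : ℕ, 0 < Q → b.Coprime Q → 4 ≤ y →
    1 ≤ z0 → z0 ≤ y → y ≤ w → k ≠ t₀ → k ≤ y ^ 2 → t₀ ≤ y ^ 2 →
    ∑ p ∈ Q.primeFactors.filter (fun p => y < p), (1 : ℝ) / p ≤ 1 / 2 →
    ∀ P : Finset ℕ, (∀ p, p ∈ P ↔ p.Prime ∧ z0 < p ∧ p ≤ w) → (∀ p ∈ P, 0 ≤ 1 - gg χ Q b (Ri Q b) p) →
    (∀ p ∈ P, 0 ≤ 1 - gg χ Q b (Rt2 Q b t₀ k) p) →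
    ∏ p ∈ P, (1 - gg χ Q b (Rt2 Q b t₀ k) p) ≤
      (∏ p ∈ P, (1 - gg χ Q b (Ri Q b) p)) * (C2 * (Real.log y / Real.log w)) := by
  classical
  obtain ⟨C, hC, HV⟩ := Pool.Agent.R529.LG.V_upD
  refine ⟨C * Real.exp 2, by positivity, ?_⟩
  intro f χ h Q b t₀ k y z0 w hQ hb hy hz0 hz0y hyw hkt hky hty hQs P hP h1 h2
  have step : ∏ p ∈ P, (1 - gg χ Q b (Rt2 Q b t₀ k) p) ≤
      ∏ p ∈ P, ((1 - gg χ Q b (Ri Q b) p) *
      (if ¬ p ∣ Q ∧ ¬ k ≡ t₀ [MOD p] then 1 - 1 / (p : ℝ) + 1 / (p : ℝ) ^ 2 else 1)) :=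
    Finset.prod_le_prod h2 fun p hp => loc_ratio h ((hP p).1 hp).1 hb
  rw [prod_mul_distrib] at step
  refine step.trans ?_
  apply mul_le_mul_of_nonneg_left _ (prod_nonneg h1)
  obtain ⟨P', hP'⟩ : ∃ P' : Finset ℕ, P' = P.filter (fun p => ¬ p ∣ Q ∧ ¬ k ≡ t₀ [MOD p]) := ⟨_, rfl⟩
  have hP'm : ∀ p ∈ P', p.Prime ∧ z0 < p ∧ p ≤ w := by
    intro p hp
    rw [hP', mem_filter] at hp
    exact (hP p).1 hp.1
  rw [← prod_filter, ← hP']
  -- the factors
  have h3 : ∏ p ∈ P', (1 - 1 / (p : ℝ) + 1 / (p : ℝ) ^ 2) ≤ ∏ p ∈ P', ((1 - 1 / (p : ℝ)) * Real.exp (2 / (p : ℝ) ^ 2)) := by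
    apply Finset.prod_le_prod
    · intro p hp
      have hp2 : (2 : ℝ) ≤ p := by exact_mod_cast (hP'm p hp).1.two_le
      have : 1 / (p : ℝ) ≤ 1 := by rw [div_le_one (by linarith)]; linarith
      have h4 : 0 ≤ 1 / (p : ℝ) ^ 2 := by positivity
      linarith
    · intro p hp
      have hp2 : (2 : ℝ) ≤ p := by exact_mod_cast (hP'm p hp).1.two_le
      have hp0 : (0 : ℝ) < p := by linarith
      have h5 : 1 + 2 / (p : ℝ) ^ 2 ≤ Real.exp (2 / (p : ℝ) ^ 2) := by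
        have := Real.add_one_le_exp (2 / (p : ℝ) ^ 2)
        linarith
      have h6 : 0 ≤ 1 - 1 / (p : ℝ) := by
        rw [sub_nonneg, div_le_one hp0]; linarith
      refine le_trans ?_ (mul_le_mul_of_nonneg_left h5 h6)
      obtain ⟨x, hx⟩ : ∃ x, x = 1 / (p : ℝ) := ⟨_, rfl⟩
      have hx2 : x ≤ 1 / 2 := by
        rw [hx]
        exact one_div_le_one_div_of_le (by norm_num) hp2
      have hx0 : 0 < x := by rw [hx]; positivity
      have e1 : 1 / (p : ℝ) ^ 2 = x ^ 2 := by rw [hx]; ring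
      have e2 : 2 / (p : ℝ) ^ 2 = 2 * x ^ 2 := by rw [hx]; ring
      rw [e1, e2, ← hx]
      nlinarith [mul_nonneg (sq_nonneg x) (show 0 ≤ 1 / 2 - x by linarith)]
  refine h3.trans ?_
  rw [prod_mul_distrib, ← Real.exp_sum]
  have h4 : ∏ p ∈ P', (1 - 1 / (p : ℝ)) ≤ C * (Real.log y / Real.log w) := by
    obtain ⟨D, hD⟩ : ∃ D : ℕ, D = max k t₀ - min k t₀ := ⟨_, rfl⟩
    have hD1 : 1 ≤ D := by omega
    have hDy : D ≤ y ^ 2 := by omega
    refine le_trans ?_ (HV y w hy hyw D Q hD1 hDy hQ hQs)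
    have hsub : (Ioc y w).filter (fun p => p.Prime ∧ ¬ p ∣ D * Q) ⊆ P' := by
      intro p hp
      rw [mem_filter, mem_Ioc] at hp
      obtain ⟨⟨g1, g2⟩, g3, g4⟩ := hp
      rw [hP', mem_filter, hP]
      refine ⟨⟨g3, by omega, g2⟩, fun hd => g4 (hd.mul_left D), fun hd => g4 ?_⟩
      apply Dvd.dvd.mul_right
      rw [hD]
      rcases le_total k t₀ with h5 | h5
      · rw [max_eq_right h5, min_eq_left h5]
        exact (Nat.modEq_iff_dvd' h5).1 hd
      · rw [max_eq_left h5, min_eq_right h5]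
        exact (Nat.modEq_iff_dvd' h5).1 hd.symm
    have h5 := V_anti hsub (fun p hp => (hP'm p hp).1)
    unfold Pool.Agent.Y835.SC.V at h5
    exact h5
  have h5 : ∑ p ∈ P', 2 / (p : ℝ) ^ 2 ≤ 2 := by
    have h6 : ∑ p ∈ P', 2 / (p : ℝ) ^ 2 ≤ ∑ p ∈ Ioc z0 w, 2 / (p : ℝ) ^ 2 := by
      apply sum_le_sum_of_subset_of_nonneg
      · intro p hp
        rw [mem_Ioc]
        exact (hP'm p hp).2
      · intro p _ _
        positivity
    have h7 := sum_inv_sq (D := w) (y := z0) (by omega)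
    have h8 : ∑ p ∈ Ioc z0 w, 2 / (p : ℝ) ^ 2 = 2 * ∑ p ∈ Ioc z0 w, 1 / ((p : ℝ) * p) := by
      rw [mul_sum]
      apply sum_congr rfl
      intro p _
      rw [sq]; ring
    have h9 : 1 / (z0 : ℝ) ≤ 1 := by
      rw [div_le_one (by exact_mod_cast hz0)]
      exact_mod_cast hz0
    rw [h8] at h6
    linarith
  have h6 : 0 ≤ ∏ p ∈ P', (1 - 1 / (p : ℝ)) := by
    apply prod_nonneg
    intro p hp
    have hp2 : (2 : ℝ) ≤ p := by exact_mod_cast (hP'm p hp).1.two_le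
    rw [sub_nonneg, div_le_one (by linarith)]
    linarith
  calc (∏ p ∈ P', (1 - 1 / (p : ℝ))) * Real.exp (∑ p ∈ P', 2 / (p : ℝ) ^ 2) ≤
      (C * (Real.log y / Real.log w)) * Real.exp 2 := by
        apply mul_le_mul h4 (Real.exp_le_exp.2 h5) (Real.exp_pos _).le
        exact h6.trans h4
    _ = _ := by ring

end Pool.Agent.H92.I
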